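import Mathlib
import Pool.Graph.R_seed8.TH820.KerH

/-!
# Central Heilbronn functions

Heilbronn functions which are real (`θ g⁻¹ = θ g`) and have even multiplicities against the
characters of order at most two of the subgroups. The orders of vanishing of the Artin L-functions
of an extension of number fields at the central point `s = 1/2` give such a function.
-/

set_option autoImplicit false

namespace Pool.Agent.H701.CP

open Subgroup Pool.Agent.H302R2 Pool.Agent.H541R3.ART Pool.Agent.W446.AS Pool.Agent.TH820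

/-- A Heilbronn function which is real and has even multiplicities against the characters of order
at most two of the subgroups. -/
structure Central {G : Type} [Group G] (θ : G → ℂ) : Prop where
  hb : IsHeilbronn θ
  real : ∀ g, θ g⁻¹ = θ g
  even : ∀ (H : Subgroup G) (χ : H →* ℂˣ), (∀ h, χ h ^ 2 = 1) →
    ∃ n : ℕ, ∑ᶠ h : H, θ h * (((χ h)⁻¹ : ℂˣ) : ℂ) = (2 * n : ℂ) * (Nat.card H : ℂ)

section
variable {G : Type} [Group G] [Finite G] {θ : G → ℂ}

/-- even multiplicities along arbitrary homomorphisms -/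
lemma Central.even_hom (hθ : Central θ) {E : Type} [Group E] [Fintype E]
    (φ : E →* G) (χ : E →* ℂˣ) (hχ2 : ∀ e, χ e ^ 2 = 1) :
    ∃ n : ℕ, ∑ e : E, θ (φ e) * (((χ e)⁻¹ : ℂˣ) : ℂ) = (2 * n : ℂ) * (Nat.card E : ℂ) := by
  classical
  by_cases hker : ∀ k ∈ φ.ker, χ k = 1
  · have : Fintype φ.range := Fintype.ofFinite _
    let χ' : φ.range →* ℂˣ :=
      (QuotientGroup.lift φ.ker χ hker).comp
        (QuotientGroup.quotientKerEquivRange φ).symm.toMonoidHom
    have hχ' : ∀ e : E, χ' (φ.rangeRestrict e) = χ e := by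
      intro e
      have : (QuotientGroup.quotientKerEquivRange φ).symm (φ.rangeRestrict e)
          = (QuotientGroup.mk e : E ⧸ φ.ker) := by
        rw [MulEquiv.symm_apply_eq]; rfl
      simp only [χ', MonoidHom.coe_comp, MulEquiv.coe_toMonoidHom, Function.comp_apply, this]
      rfl
    obtain ⟨n, hn⟩ := hθ.even φ.range χ' (by
      intro h
      obtain ⟨e, rfl⟩ := φ.rangeRestrict_surjective h
      rw [hχ', hχ2])
    refine ⟨n, ?_⟩
    rw [finsum_eq_sum_of_fintype] at hn
    have h1 := sum_comp_surj φ.rangeRestrict φ.rangeRestrict_surjective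
      (fun h : φ.range => θ h * (((χ' h)⁻¹ : ℂˣ) : ℂ))
    simp only [hχ', MonoidHom.coe_rangeRestrict] at h1
    rw [h1, hn, MonoidHom.ker_rangeRestrict]
    have h2 : Nat.card E = Nat.card φ.ker * Nat.card φ.range := by
      rw [← Nat.card_congr (QuotientGroup.quotientKerEquivRange φ).toEquiv, mul_comm]
      exact Subgroup.card_eq_card_quotient_mul_card_subgroup _
    rw [h2]; push_cast; ring
  · push Not at hker
    obtain ⟨k, hk, hχk⟩ := hker
    refine ⟨0, ?_⟩
    have h1 : ∑ e : E, θ (φ e) * (((χ e)⁻¹ : ℂˣ) : ℂ)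
        = ∑ e : E, θ (φ (e * k)) * (((χ (e * k))⁻¹ : ℂˣ) : ℂ) :=
      (Equiv.sum_comp (Equiv.mulRight k)
        (fun e => θ (φ e) * (((χ e)⁻¹ : ℂˣ) : ℂ))).symm
    have h2 : ∑ e : E, θ (φ (e * k)) * (((χ (e * k))⁻¹ : ℂˣ) : ℂ)
        = (((χ k)⁻¹ : ℂˣ) : ℂ) * ∑ e : E, θ (φ e) * (((χ e)⁻¹ : ℂˣ) : ℂ) := by
      rw [Finset.mul_sum]
      refine Finset.sum_congr rfl fun e _ => ?_
      rw [map_mul, map_mul, MonoidHom.mem_ker.mp hk, mul_one, mul_inv_rev]
      push_cast; ring
    have h3 : (((χ k)⁻¹ : ℂˣ) : ℂ) ≠ 1 := by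
      intro h
      apply hχk
      rw [← inv_eq_one, ← Units.val_eq_one]; exact h
    have h4 : (1 - (((χ k)⁻¹ : ℂˣ) : ℂ)) * ∑ e : E, θ (φ e) * (((χ e)⁻¹ : ℂˣ) : ℂ) = 0 := by
      rw [sub_mul, one_mul, ← h2, ← h1, sub_self]
    rcases mul_eq_zero.mp h4 with h5 | h5
    · exact absurd (sub_eq_zero.mp h5).symm h3
    · rw [h5]; simp

/-- Central Heilbronn functions pull back along homomorphisms. -/
lemma Central.comp (hθ : Central θ) {E : Type} [Group E] [Finite E] (φ : E →* G) :
    Central (fun e => θ (φ e)) where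
  hb := hθ.hb.comp φ
  real g := by simp only [map_inv]; exact hθ.real _
  even H χ hχ := by
    have : Fintype H := Fintype.ofFinite _
    obtain ⟨n, hn⟩ := hθ.even_hom (φ.comp H.subtype) χ hχ
    exact ⟨n, by rw [finsum_eq_sum_of_fintype]; exact hn⟩

/-- Central Heilbronn functions descend. -/
lemma Central.descend (hθ : Central θ) {Y : Type} [Group Y] (π : G →* Y)
    (hπ : Function.Surjective π) {τ : Y → ℂ} (hτ : IsHeilbronn τ) (h : ∀ g, τ (π g) = θ g) :
    Central τ where
  hb := hτ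
  real y := by
    obtain ⟨g, rfl⟩ := hπ y
    rw [← map_inv, h, h, hθ.real]
  even H χ hχ := by
    classical
    have hY : Finite Y := Finite.of_surjective π hπ
    have : Fintype H := Fintype.ofFinite _
    let E := H.comap π
    have : Fintype E := Fintype.ofFinite _
    let q : E →* H := π.subgroupComap H
    have hq : Function.Surjective q := π.subgroupComap_surjective_of_surjective H hπ
    obtain ⟨n, hn⟩ := hθ.even_hom E.subtype (χ.comp q) (fun e => hχ (q e))
    refine ⟨n, ?_⟩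
    rw [finsum_eq_sum_of_fintype]
    have h1 := sum_comp_surj q hq (fun h : H => τ h * (((χ h)⁻¹ : ℂˣ) : ℂ))
    have h2 : ∀ e : E, τ (q e) * (((χ (q e))⁻¹ : ℂˣ) : ℂ)
        = θ (E.subtype e) * ((((χ.comp q) e)⁻¹ : ℂˣ) : ℂ) := by
      intro e
      have h3 : τ (q e) = θ (E.subtype e) := h e
      rw [h3]; rfl
    rw [Finset.sum_congr rfl (fun e _ => h2 e), hn] at h1
    have h3 : Nat.card E = Nat.card q.ker * Nat.card H := by
      rw [Nat.card_congr (QuotientGroup.quotientKerEquivOfSurjective q hq).symm.toEquiv, mul_comm]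
      exact Subgroup.card_eq_card_quotient_mul_card_subgroup _
    rw [h3] at h1
    have h4 : (Nat.card q.ker : ℂ) ≠ 0 := by exact_mod_cast Nat.card_pos.ne'
    apply mul_left_cancel₀ h4
    rw [← h1]; push_cast; ring

end

section lin
variable {A : Type} [Group A] [Finite A] {θ : A → ℂ}

/-- **Action of elements of odd prime power order.** -/
theorem act_real (hc : Central θ) {r : ℕ} (hr : θ 1 = r) (hK : ∀ g ∈ commutator A, θ g = θ 1)
    {m : ℕ} (hm : m.Prime) (hm2 : m ≠ 2) (hmr : r < 2 * m) (τ : A →* A) {k : ℕ}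
    (hτ : ∀ a, τ^[m ^ k] a = a) (hθτ : ∀ a, θ (τ a) = θ a) (a : A) : θ (a⁻¹ * τ a) = θ 1 := by
  classical
  have hθ := hc.hb
  have : Fintype A := Fintype.ofFinite A
  have hfin : Finite (A →* ℂˣ) := finite_hom_units
  have : Fintype (A →* ℂˣ) := Fintype.ofFinite _
  obtain ⟨ι, _, ψ, n, hdec⟩ := lin_decomp hθ hK
  -- multiplicities
  let mu : (A →* ℂˣ) → ℕ := fun χ => ∑ i, if ψ i = χ then n i else 0
  have hmu : ∀ χ : A →* ℂˣ, ∑ a : A, θ a * (((χ a)⁻¹ : ℂˣ) : ℂ) = (mu χ : ℂ) * Nat.card A := by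
    intro χ
    have h1 : ∀ i, ∑ a : A, ((ψ i a : ℂˣ) : ℂ) * (((χ a)⁻¹ : ℂˣ) : ℂ)
        = if ψ i = χ then (Nat.card A : ℂ) else 0 := by
      intro i
      by_cases h : ψ i = χ
      · rw [if_pos h, h]
        have : ∀ a : A, ((χ a : ℂˣ) : ℂ) * (((χ a)⁻¹ : ℂˣ) : ℂ) = 1 := by
          intro a
          rw [← Units.val_mul, mul_inv_cancel, Units.val_one]
        rw [Finset.sum_congr rfl (fun a _ => this a)]
        simp
      · rw [if_neg h]
        have h2 : ψ i * χ⁻¹ ≠ 1 := by
          intro h3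
          exact h (mul_inv_eq_one.1 h3)
        have h3 := finsum_char_eq_zero (ψ i * χ⁻¹) h2
        rw [finsum_eq_sum_of_fintype] at h3
        rw [← h3]
        refine Finset.sum_congr rfl fun a _ => ?_
        rw [MonoidHom.mul_apply, MonoidHom.inv_apply, Units.val_mul]
    simp only [hdec, Finset.sum_mul, mul_assoc]
    rw [Finset.sum_comm]
    have h4 : ∀ i, ∑ a : A, (n i : ℂ) * (((ψ i a : ℂˣ) : ℂ) * (((χ a)⁻¹ : ℂˣ) : ℂ))
        = (if ψ i = χ then (n i : ℂ) else 0) * Nat.card A := by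
      intro i
      rw [← Finset.mul_sum, h1]
      by_cases h : ψ i = χ
      · rw [if_pos h, if_pos h]
      · rw [if_neg h, if_neg h, mul_zero, zero_mul]
    rw [Finset.sum_congr rfl (fun i _ => h4 i), ← Finset.sum_mul]
    congr 1
    simp only [mu]
    push_cast
    rfl
  have hsum : ∑ χ : A →* ℂˣ, mu χ = r := by
    simp only [mu]
    rw [Finset.sum_comm]
    have h1 : ∀ i, ∑ χ : A →* ℂˣ, (if ψ i = χ then n i else 0) = n i := by
      intro i
      rw [Finset.sum_ite_eq]
      simp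
    rw [Finset.sum_congr rfl (fun i _ => h1 i)]
    have h2 := hdec 1
    rw [hr] at h2
    simp only [map_one, Units.val_one, mul_one] at h2
    exact_mod_cast h2.symm
  -- duality
  have hdual : ∀ χ, mu χ⁻¹ = mu χ := by
    intro χ
    have h1 := hmu χ⁻¹
    have h2 : ∑ a : A, θ a * (((χ⁻¹ a)⁻¹ : ℂˣ) : ℂ) = ∑ a : A, θ a * (((χ a)⁻¹ : ℂˣ) : ℂ) := by
      rw [← Equiv.sum_comp (Equiv.inv A) (fun a => θ a * (((χ a)⁻¹ : ℂˣ) : ℂ))]
      refine Finset.sum_congr rfl fun a _ => ?_
      rw [Equiv.inv_apply, hc.real, MonoidHom.inv_apply, map_inv]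
    rw [h2, hmu χ] at h1
    have h3 : (Nat.card A : ℂ) ≠ 0 := by exact_mod_cast Nat.card_pos.ne'
    have h4 := mul_right_cancel₀ h3 h1
    exact_mod_cast h4.symm
  have heven : ∀ χ : A →* ℂˣ, (∀ a, χ a ^ 2 = 1) → mu χ ≠ 0 → 2 ≤ mu χ := by
    intro χ hχ h0
    obtain ⟨n, hn⟩ := hc.even_hom (MonoidHom.id A) χ hχ
    have h1 := hmu χ
    simp only [MonoidHom.id_apply] at hn
    rw [hn] at h1
    have h3 : (Nat.card A : ℂ) ≠ 0 := by exact_mod_cast Nat.card_pos.ne'
    have h4 := mul_right_cancel₀ h3 h1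
    have h5 : 2 * n = mu χ := by exact_mod_cast h4
    omega
  -- the action of `τ`
  let F : (A →* ℂˣ) → (A →* ℂˣ) := fun χ => χ.comp τ
  have hF : ∀ (j : ℕ) (χ : A →* ℂˣ) (a : A), F^[j] χ a = χ (τ^[j] a) := by
    intro j
    induction j with
    | zero => intro χ a; rfl
    | succ j ih =>
      intro χ a
      rw [Function.iterate_succ_apply, ih, Function.iterate_succ_apply']
      rfl
  have hτbij : Function.Bijective τ := by
    have h1 : 1 ≤ m ^ k := Nat.one_le_pow _ _ hm.pos
    have hinj : Function.Injective τ := by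
      intro a b hab
      rw [← hτ a, ← hτ b, ← Nat.sub_add_cancel h1, Function.iterate_succ_apply,
        Function.iterate_succ_apply, hab]
    exact hinj.bijective_of_finite
  let e : A ≃ A := Equiv.ofBijective τ hτbij
  have hmuF : ∀ χ, mu (F χ) = mu χ := by
    intro χ
    have h1 := hmu (F χ)
    have h2 : ∑ a : A, θ a * (((F χ a)⁻¹ : ℂˣ) : ℂ) = ∑ a : A, θ a * (((χ a)⁻¹ : ℂˣ) : ℂ) := by
      rw [← Equiv.sum_comp e (fun a => θ a * (((χ a)⁻¹ : ℂˣ) : ℂ))]
      refine Finset.sum_congr rfl fun a _ => ?_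
      change θ a * _ = θ (τ a) * (((χ (τ a))⁻¹ : ℂˣ) : ℂ)
      rw [hθτ]
      rfl
    rw [h2, hmu χ] at h1
    have h3 : (Nat.card A : ℂ) ≠ 0 := by exact_mod_cast Nat.card_pos.ne'
    have h4 := mul_right_cancel₀ h3 h1
    exact_mod_cast h4.symm
  have hmuF' : ∀ (j : ℕ) χ, mu (F^[j] χ) = mu χ := by
    intro j
    induction j with
    | zero => intro χ; rfl
    | succ j ih =>
      intro χ
      rw [Function.iterate_succ_apply, ih, hmuF]
  have hper : ∀ χ, Function.IsPeriodicPt F (m ^ k) χ := by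
    intro χ
    ext a
    rw [hF, hτ]
  have hFinv : ∀ (j : ℕ) χ, F^[j] χ⁻¹ = (F^[j] χ)⁻¹ := by
    intro j χ
    ext a
    rw [hF, MonoidHom.inv_apply, MonoidHom.inv_apply, hF]
  have hii : ∀ χ : A →* ℂˣ, χ⁻¹⁻¹ = χ := by
    intro χ
    ext a
    rw [MonoidHom.inv_apply, MonoidHom.inv_apply, inv_inv]
  have hfix : ∀ χ, mu χ ≠ 0 → F χ = χ := by
    intro χ hχ
    by_contra hne
    have h1 : Function.minimalPeriod F χ ∣ m ^ k := (hper χ).minimalPeriod_dvd
    obtain ⟨j, -, hj⟩ := (Nat.dvd_prime_pow hm).1 h1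
    have hj0 : j ≠ 0 := by
      rintro rfl
      rw [pow_zero, Function.minimalPeriod_eq_one_iff_isFixedPt] at hj
      exact hne hj
    have h2 : m ≤ Function.minimalPeriod F χ := by
      rw [hj]
      exact Nat.le_self_pow hj0 m
    have hodd : Odd (Function.minimalPeriod F χ) := by
      rw [hj]; exact (hm.odd_of_ne_two hm2).pow
    have hinj : Set.InjOn (fun j => F^[j] χ) (Finset.range m : Set ℕ) := by
      intro a ha b hb hab
      rw [Finset.coe_range, Set.mem_Iio] at ha hb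
      exact Function.iterate_injOn_Iio_minimalPeriod (Set.mem_Iio.2 (ha.trans_le h2))
        (Set.mem_Iio.2 (hb.trans_le h2)) hab
    by_cases hre : ∀ a, χ a ^ 2 = 1
    · have h3 : ∑ j ∈ Finset.range m, mu (F^[j] χ) ≤ ∑ χ : A →* ℂˣ, mu χ := by
        rw [← Finset.sum_image (g := fun j => F^[j] χ) (f := mu) hinj]
        exact Finset.sum_le_sum_of_subset (Finset.subset_univ _)
      rw [hsum, Finset.sum_congr rfl (fun j _ => hmuF' j χ), Finset.sum_const, Finset.card_range,
        smul_eq_mul] at h3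
      have h4 : m * 2 ≤ m * mu χ := Nat.mul_le_mul_left m (heven χ hre hχ)
      omega
    · -- the two orbits are disjoint
      have hdisj : ∀ i, F^[i] χ ≠ χ⁻¹ := by
        intro i hi
        have h5 : F^[i + i] χ = χ := by
          rw [Function.iterate_add_apply, hi, hFinv, hi, hii]
        have h6 : Function.minimalPeriod F χ ∣ i + i :=
          Function.IsPeriodicPt.minimalPeriod_dvd h5
        rw [← two_mul] at h6
        have h7 : Function.minimalPeriod F χ ∣ i :=
          (Nat.Coprime.dvd_of_dvd_mul_left ((Nat.coprime_two_right).2 hodd) h6)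
        have h8 : F^[i] χ = χ := (Function.isPeriodicPt_iff_minimalPeriod_dvd).2 h7
        apply hre
        intro a
        rw [h8] at hi
        have h9 := DFunLike.congr_fun hi a
        rw [MonoidHom.inv_apply] at h9
        rw [pow_two]
        nth_rewrite 1 [h9]
        exact inv_mul_cancel _
      have hinj2 : Set.InjOn (fun j => F^[j] χ⁻¹) (Finset.range m : Set ℕ) := by
        intro a ha b hb hab
        apply hinj ha hb
        simp only [hFinv] at hab
        have h5 := congrArg (·⁻¹) hab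
        simp only [hii] at h5
        exact h5
      have hd : Disjoint ((Finset.range m).image fun j => F^[j] χ)
          ((Finset.range m).image fun j => F^[j] χ⁻¹) := by
        rw [Finset.disjoint_left]
        intro ξ hξ1 hξ2
        obtain ⟨a, ha, rfl⟩ := Finset.mem_image.1 hξ1
        obtain ⟨b, hb, hab⟩ := Finset.mem_image.1 hξ2
        -- move back to `χ⁻¹`
        have hbk : b ≤ m ^ k := by
          rw [Finset.mem_range] at hb
          have h5 : m ≤ m ^ k := h2.trans (Nat.le_of_dvd (pow_pos hm.pos k) h1)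
          omega
        apply hdisj (m ^ k - b + a)
        rw [Function.iterate_add_apply, ← hab, ← Function.iterate_add_apply,
          Nat.sub_add_cancel hbk]
        exact hper χ⁻¹
      have h3 : ∑ j ∈ Finset.range m, mu (F^[j] χ) + ∑ j ∈ Finset.range m, mu (F^[j] χ⁻¹)
          ≤ ∑ χ : A →* ℂˣ, mu χ := by
        rw [← Finset.sum_image (g := fun j => F^[j] χ) (f := mu) hinj,
          ← Finset.sum_image (g := fun j => F^[j] χ⁻¹) (f := mu) hinj2,
          ← Finset.sum_union hd]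
        exact Finset.sum_le_sum_of_subset (Finset.subset_univ _)
      rw [hsum, Finset.sum_congr rfl (fun j _ => hmuF' j χ),
        Finset.sum_congr rfl (fun j _ => hmuF' j χ⁻¹), hdual, Finset.sum_const,
        Finset.card_range, smul_eq_mul] at h3
      have h4 : m * 1 ≤ m * mu χ := Nat.mul_le_mul_left m (Nat.one_le_iff_ne_zero.2 hχ)
      omega
  -- conclusion
  rw [hdec (a⁻¹ * τ a), hdec 1]
  refine Finset.sum_congr rfl fun i _ => ?_
  by_cases hi : n i = 0
  · rw [hi, Nat.cast_zero, zero_mul, zero_mul]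
  have h1 : mu (ψ i) ≠ 0 := by
    have h2 : n i ≤ mu (ψ i) := by
      have h3 := Finset.single_le_sum (f := fun j => if ψ j = ψ i then n j else 0)
        (fun j _ => Nat.zero_le _) (Finset.mem_univ i)
      simpa [mu] using h3
    omega
  have h2 := DFunLike.congr_fun (hfix _ h1) a
  have h3 : ψ i (τ a) = ψ i a := h2
  rw [map_mul, map_inv, h3, inv_mul_cancel, map_one]

end lin

section
variable {G : Type} [Group G] [Finite G] {θ : G → ℂ}

/-- elements of odd prime power order acting on a `p`-subgroup with commutators in the kernel -/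
lemma act_real_sub (hc : Central θ) {r : ℕ} (hr : θ 1 = r) {p : ℕ}
    [Fact p.Prime] {Q : Subgroup G} (hQ : IsPGroup p Q)
    (hcomm : ∀ x ∈ Q, ∀ y ∈ Q, θ (x * y * x⁻¹ * y⁻¹) = θ 1) {m : ℕ} (hm : m.Prime) (hm2 : m ≠ 2)
    (hmr : r < 2 * m) {t : G} (ht : t ∈ normalizer (Q : Set G)) {k : ℕ} (hk : t ^ m ^ k = 1)
    {x : G} (hx : x ∈ Q) : θ (x⁻¹ * (t * x * t⁻¹)) = θ 1 := by
  have h1 : ∀ g ∈ commutator Q, (fun x : Q => θ x) g = (fun x : Q => θ x) 1 :=
    comm_of_pgroup hQ (hc.hb.comp Q.subtype) (fun x y => hcomm x x.2 y y.2)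
  exact act_real (hc.comp Q.subtype) (r := r) (by simpa using hr) h1 hm hm2 hmr (conjHom Q ht)
    (k := k) (by
      intro b
      apply Subtype.ext
      rw [conjHom_iterate, hk]
      simp) (by
      intro b
      change θ (t * b * t⁻¹) = θ b
      rw [hc.hb.conj]) ⟨x, hx⟩

end

/-- **`p`-groups, `p` odd, `r < 2 p`.** -/
theorem pgroup_comm_real {p : ℕ} [hp : Fact p.Prime] (hp2 : p ≠ 2) {r : ℕ} (hrp : r < 2 * p) :
    ∀ (n : ℕ) (P : Type) [Group P] [Finite P], Nat.card P = n → IsPGroup p P →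
      ∀ (θ : P → ℂ) (_ : Central θ) (_ : θ 1 = r) (x y : P), θ (x * y * x⁻¹ * y⁻¹) = θ 1 := by
  intro n
  induction n using Nat.strong_induction_on with
  | _ n ih =>
  intro P _ _ hPn hP θ hc hr x y
  have hθ := hc.hb
  rcases subsingleton_or_nontrivial P with hs | hnt
  · rw [Subsingleton.elim (x * y * x⁻¹ * y⁻¹) 1]
  have hnil := hP.isNilpotent
  obtain ⟨M, hM, -⟩ := (eq_top_or_exists_le_coatom (⊥ : Subgroup P)).resolve_left bot_ne_top
  have hMn : M.Normal :=
    NormalizerCondition.normal_of_coatom M Group.normalizerCondition_of_isNilpotent hM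
  have hMlt : Nat.card M < n := by
    rw [← hPn]
    apply lt_of_le_of_ne (Subgroup.card_le_card_group _)
    intro h
    exact hM.1 (Subgroup.eq_top_of_card_eq _ h)
  have hMP := hP.to_subgroup M
  have h1 : ∀ g ∈ commutator M, (fun x : M => θ x) g = (fun x : M => θ x) 1 :=
    comm_of_pgroup hMP (hθ.comp M.subtype)
      (ih _ hMlt M rfl hMP (fun x => θ x) (hc.comp M.subtype) (by simpa using hr))
  obtain ⟨t, ht⟩ : ∃ t : P, t ∉ M := by
    by_contra hcon
    push Not at hcon
    exact hM.1 ((Subgroup.eq_top_iff' M).2 hcon)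
  have hact : ∀ a ∈ M, θ (a⁻¹ * (t * a * t⁻¹)) = θ 1 := by
    intro a ha
    obtain ⟨k, hk⟩ := hP t
    let τ : M →* M := ((MulAut.conjNormal t : MulAut M) : M →* M)
    have hτ : ∀ b : M, ((τ b : M) : P) = t * b * t⁻¹ := fun b => MulAut.conjNormal_apply t b
    have hτj : ∀ (j : ℕ) (b : M), ((τ^[j] b : M) : P) = t ^ j * b * (t ^ j)⁻¹ := by
      intro j
      induction j with
      | zero => intro b; simp
      | succ j ihj =>
        intro b
        rw [Function.iterate_succ_apply', hτ, ihj, pow_succ']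
        group
    have h2 := act_real (hc.comp M.subtype) (r := r) (by simpa using hr) h1 hp.out hp2 hrp τ
      (k := k) (by
        intro b
        apply Subtype.ext
        rw [hτj, hk]
        simp) (by
        intro b
        change θ ((τ b : M) : P) = θ b
        rw [hτ, hθ.conj]) ⟨a, ha⟩
    have h3 : ((⟨a, ha⟩⁻¹ * τ ⟨a, ha⟩ : M) : P) = a⁻¹ * (t * a * t⁻¹) := by
      rw [Subgroup.coe_mul, hτ]
      rfl
    have h4 : θ ((⟨a, ha⟩⁻¹ * τ ⟨a, ha⟩ : M) : P) = θ ((1 : M) : P) := h2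
    rw [h3] at h4
    exact h4
  -- the quotient by the kernel
  let K : Subgroup P :=
    { carrier := {x | θ x = θ 1}
      mul_mem' := fun {x y} hx hy => hθ.pgroup_mul (R := ⊤) (hP.to_subgroup _) (mem_top x)
        (mem_top y) hx hy
      one_mem' := rfl
      inv_mem' := fun {x} hx => hθ.inv_of_eq hx }
  have hKn : K.Normal := ⟨fun x hx g => by
    change θ (g * x * g⁻¹) = θ 1
    rw [hθ.conj]; exact hx⟩
  let q := QuotientGroup.mk' K
  have hq : ∀ a b : P, q a * q b = q b * q a ↔ θ (a * b * a⁻¹ * b⁻¹) = θ 1 := by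
    intro a b
    have h5 : (a * b * a⁻¹ * b⁻¹) ∈ K ↔ θ (a * b * a⁻¹ * b⁻¹) = θ 1 := Iff.rfl
    rw [← h5, ← QuotientGroup.eq_one_iff]
    simp only [QuotientGroup.mk_mul, QuotientGroup.mk_inv]
    rw [mul_inv_eq_one, mul_inv_eq_iff_eq_mul]
    rfl
  have hMM : ∀ a ∈ M, ∀ b ∈ M, q a * q b = q b * q a := by
    intro a ha b hb
    rw [hq]
    have h6 := h1 (⟨a, ha⟩ * ⟨b, hb⟩ * ⟨a, ha⟩⁻¹ * ⟨b, hb⟩⁻¹) (by
      have := Subgroup.commutator_mem_commutator (Subgroup.mem_top (⟨a, ha⟩ : M))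
        (Subgroup.mem_top (⟨b, hb⟩ : M))
      rw [commutatorElement_def] at this
      exact this)
    exact h6
  have hMt : ∀ a ∈ M, q a * q t = q t * q a := by
    intro a ha
    have h6 := hact a⁻¹ (M.inv_mem ha)
    rw [hq, ← h6]
    congr 1
    group
  have htop : ∀ S : Subgroup P, M ≤ S → t ∈ S → S = ⊤ := by
    intro S hMS htS
    rcases hM.le_iff.1 hMS with h | h
    · exact h
    · rw [h] at htS; exact absurd htS ht
  have hcent : ∀ a : P, (∀ b ∈ M, q a * q b = q b * q a) → q a * q t = q t * q a →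
      ∀ b, q a * q b = q b * q a := by
    intro a h6 h7 b
    have h8 : (centralizer {q a}).comap q = ⊤ := by
      apply htop
      · intro b hb
        rw [mem_comap, mem_centralizer_singleton_iff]
        exact (h6 b hb).symm
      · rw [mem_comap, mem_centralizer_singleton_iff]
        exact h7.symm
    have h9 : b ∈ (centralizer {q a}).comap q := by rw [h8]; exact mem_top b
    rw [mem_comap, mem_centralizer_singleton_iff] at h9
    exact h9.symm
  have hA : ∀ a ∈ M, ∀ b, q a * q b = q b * q a := fun a ha => hcent a (hMM a ha) (hMt a ha)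
  have hT : ∀ b, q t * q b = q b * q t := hcent t (fun b hb => (hMt b hb).symm) rfl
  rw [← hq]
  exact hcent x (fun b hb => (hA b hb x).symm) (hT x).symm y

section
variable {G : Type} [Group G] [Finite G] {θ : G → ℂ}

/-- **Commutator subgroup.** If `θ = θ 1` on the elements of two-power order of `G` and `θ 1 < 2 p`
for the odd primes `p` dividing the order of `G`, then `θ = θ 1` on the commutator subgroup. -/
theorem commutator_ker_real (hc : Central θ) (hv : Virt θ) {r : ℕ} (hr : θ 1 = r)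
    (hp : ∀ p : ℕ, p.Prime → p ≠ 2 → p ∣ Nat.card G → r < 2 * p)
    (h : ∀ (x : G) (k : ℕ), x ^ 2 ^ k = 1 → θ x = θ 1) :
    ∀ g ∈ commutator G, θ g = θ 1 := by
  have hθ := hc.hb
  apply of_prime_powers hθ
  intro l hl x hx k hk
  by_cases hl2 : l = 2
  · subst hl2
    exact h x k hk
  have hlf : Fact l.Prime := ⟨hl⟩
  by_cases hx1 : x = 1
  · rw [hx1]
  have hdvd : ∀ {m : ℕ}, m.Prime → ∀ {y : G} {j : ℕ}, y ^ m ^ j = 1 → y ≠ 1 → m ∣ Nat.card G := by
    intro m hm y j hy hy1
    obtain ⟨i, -, hi⟩ := (Nat.dvd_prime_pow hm).1 (orderOf_dvd_of_pow_eq_one hy)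
    have hi0 : i ≠ 0 := by
      rintro rfl
      rw [pow_zero, orderOf_eq_one_iff] at hi
      exact hy1 hi
    exact ((dvd_pow_self m hi0).trans (hi ▸ dvd_rfl)).trans (orderOf_dvd_natCard y)
  have hlr : r < 2 * l := hp l hl hl2 (hdvd hl hk hx1)
  obtain ⟨P⟩ := (inferInstance : Nonempty (Sylow l G))
  have hcomm : ∀ x ∈ P, ∀ y ∈ P, θ (x * y * x⁻¹ * y⁻¹) = θ 1 := by
    intro x hx y hy
    have := pgroup_comm_real hl2 hlr _ P rfl P.2 (fun x => θ x)
      (hc.comp (P : Subgroup G).subtype) (by simpa using hr) ⟨x, hx⟩ ⟨y, hy⟩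
    simpa using this
  refine sylow_comm hθ P ?_ hcomm hx hk
  rintro Q hQ m hm - t ht ⟨j, hj⟩ x hx
  have hQp : IsPGroup l Q := P.2.to_le hQ
  have hcQ : ∀ x ∈ Q, ∀ y ∈ Q, θ (x * y * x⁻¹ * y⁻¹) = θ 1 := fun x hx y hy =>
    hcomm x (hQ hx) y (hQ hy)
  by_cases hm2 : m = 2
  · subst hm2
    exact act_kernel hθ hv hr hQp hcQ ht (h t j hj) hx
  · by_cases ht1 : t = 1
    · subst ht1
      simp
    exact act_real_sub hc hr hQp hcQ hm hm2 (hp m hm hm2 (hdvd hm hj ht1)) ht hj hx

end

end Pool.Agent.H701.CP
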