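import Mathlib
import Pool.Agent.H701.CP.Cen

/-!
# Twisted quaternion sections and elements of odd order acting on two-subgroups
-/

set_option autoImplicit false
set_option linter.unusedSectionVars false

namespace Pool.Agent.H701.CP

open Subgroup Pool.Agent.H302R2 Pool.Agent.H541R3.ART Pool.Agent.W446.AS Pool.Agent.TH820

/-- `X` is generated by a nonabelian normal `2`-subgroup `E` all of whose squares are `1` or `z`,
`z ≠ 1` central, and by an element `t` whose order is a power of an odd prime and such that the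
proper `t`-invariant subgroups of `E` are contained in `{1, z}`. (Then `E` is an extraspecial
`2`-group with centre `{1, z}`, and `t` acts irreducibly on `E / {1, z}`; the smallest example is
`SL₂(𝔽₃)`.) -/
structure Twisted (X : Type) [Group X] (E : Subgroup X) (z t : X) : Prop where
  two : IsPGroup 2 E
  normal : E.Normal
  gen : E ⊔ zpowers t = ⊤
  odd : ∃ m k : ℕ, m.Prime ∧ m ≠ 2 ∧ t ^ m ^ k = 1
  central : z ∈ center X
  ne : z ≠ 1
  mem : z ∈ E
  sq : ∀ x ∈ E, x ^ 2 = 1 ∨ x ^ 2 = z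
  nonab : ∃ x ∈ E, ∃ y ∈ E, x * y ≠ y * x
  irred : ∀ R : Subgroup X, R ≤ E → (∀ x ∈ R, t * x * t⁻¹ ∈ R) → R = E ∨ ∀ x ∈ R, x = 1 ∨ x = z

open Classical in
/-- the class function `1` at `1`, `-1` at `z` and `0` elsewhere -/
noncomputable def cz {X : Type} [Group X] (z x : X) : ℂ := if x = 1 then 1 else if x = z then -1 else 0

/-- no twisted section on which the multiplicity of the nontrivial character of `{1, z}` is
positive -/
def NT {G : Type} [Group G] (θ : G → ℂ) : Prop :=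
  ∀ (H : Subgroup G) (X : Type) [Group X] (f : H →* X) (E : Subgroup X) (z t : X),
    Function.Surjective f → Twisted X E z t → ∑ᶠ h : H, θ h * cz z (f h) = 0

lemma NT.sub {G H : Type} [Group G] [Group H] {θ : G → ℂ} (h : NT θ) (i : H →* G)
    (hi : Function.Injective i) : NT (fun x => θ (i x)) := by
  intro H' X _ f E z t hf hT
  let e := H'.equivMapOfInjective i hi
  have h1 := h (H'.map i) X (f.comp e.symm.toMonoidHom) E z t (hf.comp e.symm.surjective) hT
  rw [← h1]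
  refine finsum_eq_of_bijective e e.bijective ?_
  intro x
  have h2 : ((e x : H'.map i) : G) = i (x : H) := rfl
  have h3 : (f.comp e.symm.toMonoidHom) (e x) = f x := by
    change f (e.symm (e x)) = f x
    rw [MulEquiv.symm_apply_apply]
  rw [h3, h2]

lemma NT.quot {G H : Type} [Group G] [Finite G] [Group H] {θ : H → ℂ} (π : G →* H)
    (hπ : Function.Surjective π) (h : NT (fun x => θ (π x))) : NT θ := by
  classical
  intro H' X _ f E z t hf hT
  have hY : Finite H := Finite.of_surjective π hπ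
  have : Fintype H' := Fintype.ofFinite _
  have : Fintype (H'.comap π) := Fintype.ofFinite _
  let q : H'.comap π →* H' := π.subgroupComap H'
  have hq : Function.Surjective q := π.subgroupComap_surjective_of_surjective H' hπ
  have h1 := h (H'.comap π) X (f.comp q) E z t (hf.comp hq) hT
  rw [finsum_eq_sum_of_fintype] at h1 ⊢
  have h2 := sum_comp_surj q hq (fun x : H' => θ x * cz z (f x))
  have h3 : ∀ e : H'.comap π, θ (q e) * cz z (f (q e)) = θ (π e) * cz z ((f.comp q) e) :=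
    fun e => rfl
  rw [Finset.sum_congr rfl (fun e _ => h3 e), h1] at h2
  have h4 : (Nat.card q.ker : ℂ) ≠ 0 := by exact_mod_cast Nat.card_pos.ne'
  exact (mul_eq_zero.1 h2.symm).resolve_left h4

/-- a character of a `2`-group of order two exactly, trivial on a proper normal subgroup -/
lemma exists_quad {P : Type} [Group P] [Finite P] (hP : IsPGroup 2 P) (hnt : Nontrivial P) :
    ∃ ψ : P →* ℂˣ, (∀ x, ψ (x ^ 2) = 1) ∧ ∃ x, ψ x ≠ 1 := by
  have : Fact (Nat.Prime 2) := ⟨Nat.prime_two⟩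
  obtain ⟨ψ, -, x, hx⟩ := exists_lin hP (⊥ : Subgroup P) bot_ne_top inferInstance
  have h1 : ∃ j : ℕ, ∀ y, ψ y ^ 2 ^ j = 1 := by
    obtain ⟨n, hn⟩ := IsPGroup.iff_card.1 hP
    refine ⟨n, fun y => ?_⟩
    rw [← map_pow, ← hn, pow_card_eq_one', map_one]
  classical
  let j := Nat.find h1
  have hj : ∀ y, ψ y ^ 2 ^ j = 1 := Nat.find_spec h1
  have hj0 : j ≠ 0 := by
    intro h0
    rw [h0] at hj
    apply hx
    simpa using hj x
  obtain ⟨i, hi⟩ := Nat.exists_eq_succ_of_ne_zero hj0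
  have hi' : ¬ ∀ y, ψ y ^ 2 ^ i = 1 := Nat.find_min h1 (by
    change i < j
    omega)
  push Not at hi'
  obtain ⟨y, hy⟩ := hi'
  refine ⟨ψ ^ 2 ^ i, fun x => ?_, y, by rwa [MonoidHom.pow_apply]⟩
  rw [MonoidHom.pow_apply, map_pow, ← pow_mul, ← pow_succ', ← Nat.succ_eq_add_one, ← hi]
  exact hj x

/-- linear characters of `P` trivial on squares separate elements from the subgroup generated by the
squares -/
lemma exists_quad_sep {P : Type} [Group P] [Finite P] (Φ : Subgroup P) (hΦ : ∀ x, x ^ 2 ∈ Φ)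
    (hn : Φ.Normal) {c : P} (hc : c ∉ Φ) : ∃ ψ : P →* ℂˣ, (∀ x ∈ Φ, ψ x = 1) ∧ ψ c ≠ 1 := by
  have hab : ∀ a b : P ⧸ Φ, a * b = b * a := by
    have h2 : ∀ a : P ⧸ Φ, a * a = 1 := by
      intro a
      induction a using QuotientGroup.induction_on with | _ a => ?_
      rw [← QuotientGroup.mk_mul, QuotientGroup.eq_one_iff, ← pow_two]
      exact hΦ a
    intro a b
    have h3 : ∀ a : P ⧸ Φ, a⁻¹ = a := fun a => inv_eq_of_mul_eq_one_left (h2 a)
    have h4 := h3 (a * b)
    rw [mul_inv_rev, h3, h3] at h4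
    exact h4.symm
  let _ : CommGroup (P ⧸ Φ) := { (inferInstance : Group (P ⧸ Φ)) with mul_comm := hab }
  have h1 : (c : P ⧸ Φ) ≠ 1 := by
    intro h
    exact hc ((QuotientGroup.eq_one_iff c).1 h)
  obtain ⟨ψ, hψ⟩ := CommGroup.exists_apply_ne_one_of_hasEnoughRootsOfUnity (P ⧸ Φ) ℂ h1
  refine ⟨ψ.comp (QuotientGroup.mk' Φ), ?_, hψ⟩
  intro x hx
  have h1 : QuotientGroup.mk' Φ x = 1 := (QuotientGroup.eq_one_iff x).2 hx
  rw [MonoidHom.comp_apply, h1, map_one]


section minimal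
variable {G : Type} [Group G] [Finite G] {Q : Subgroup G} {t : G}

/-- the subgroup generated by the squares of the elements of `Q` -/
def sqs (Q : Subgroup G) : Subgroup G := closure {y | ∃ x ∈ Q, y = x ^ 2}

lemma sq_mem {x : G} (hx : x ∈ Q) : x ^ 2 ∈ sqs Q := subset_closure ⟨x, hx, rfl⟩

lemma sqs_le : sqs Q ≤ Q := by
  refine (closure_le Q).2 ?_
  rintro _ ⟨x, hx, rfl⟩
  exact Q.pow_mem hx 2

/-- a subgroup containing the squares contains the commutators -/
lemma comm_mem_sqs {a b : G} (ha : a ∈ Q) (hb : b ∈ Q) : a * b * a⁻¹ * b⁻¹ ∈ sqs Q := by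
  have h1 : a * b * a⁻¹ * b⁻¹ = (a * b) ^ 2 * (b⁻¹ * a⁻¹ * b) ^ 2 * (b⁻¹) ^ 2 := by
    simp only [pow_two]; group
  rw [h1]
  exact mul_mem (mul_mem (sq_mem (mul_mem ha hb))
    (sq_mem (mul_mem (mul_mem (inv_mem hb) (inv_mem ha)) hb))) (sq_mem (inv_mem hb))

/-- the subgroup `[Q, t]` -/
def brk (Q : Subgroup G) (t : G) : Subgroup G := closure {y | ∃ x ∈ Q, y = x⁻¹ * (t * x * t⁻¹)}

/-- The situation of a minimal counterexample. -/
structure MinSit (Q : Subgroup G) (t : G) (N : ℕ) : Prop where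
  two : IsPGroup 2 Q
  normal : Q.Normal
  oddN : Odd N
  pow : t ^ N = 1
  gen : Q ⊔ zpowers t = ⊤
  prop : ∀ R : Subgroup G, R ≤ Q → (∀ x ∈ R, t * x * t⁻¹ ∈ R) → R ≠ Q → ∀ x ∈ R, t * x * t⁻¹ = x
  ex : ∃ x ∈ Q, t * x * t⁻¹ ≠ x

variable {N : ℕ}

lemma MinSit.conj_mem (h : MinSit Q t N) {x : G} (hx : x ∈ Q) : t * x * t⁻¹ ∈ Q :=
  h.normal.conj_mem x hx t

lemma MinSit.norm (h : MinSit Q t N) : t ∈ normalizer (Q : Set G) := by
  have := h.normal
  rw [Subgroup.normalizer_eq_top]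
  exact mem_top t

lemma MinSit.brk_eq (h : MinSit Q t N) : brk Q t = Q := by
  have hle : brk Q t ≤ Q := by
    refine (closure_le Q).2 ?_
    rintro _ ⟨x, hx, rfl⟩
    exact mul_mem (inv_mem hx) (h.conj_mem hx)
  by_contra hne
  have hfix := h.prop (brk Q t) hle (by
    intro y hy
    unfold brk at hy ⊢
    induction hy using closure_induction with
    | mem y hy =>
      obtain ⟨x, hx, rfl⟩ := hy
      refine subset_closure ⟨t * x * t⁻¹, h.conj_mem hx, ?_⟩
      group
    | one => rw [mul_one, mul_inv_cancel]; exact one_mem _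
    | mul a b _ _ ha hb =>
      have e : t * (a * b) * t⁻¹ = (t * a * t⁻¹) * (t * b * t⁻¹) := by group
      rw [e]; exact mul_mem ha hb
    | inv a _ ha =>
      have e : t * a⁻¹ * t⁻¹ = (t * a * t⁻¹)⁻¹ := by group
      rw [e]; exact inv_mem ha) hne
  obtain ⟨x, hx, hxt⟩ := h.ex
  apply hxt
  set c := x⁻¹ * (t * x * t⁻¹) with hc
  have hcf : t * c * t⁻¹ = c := hfix c (subset_closure ⟨x, hx, hc⟩)
  have h1 : ∀ j : ℕ, t ^ j * x * (t ^ j)⁻¹ = x * c ^ j := by
    intro j
    induction j with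
    | zero => simp
    | succ j ih =>
      have e1 : t ^ (j + 1) * x * (t ^ (j + 1))⁻¹ = t * (t ^ j * x * (t ^ j)⁻¹) * t⁻¹ := by
        rw [pow_succ']; group
      have e2 : t * (x * c ^ j) * t⁻¹ = (t * x * t⁻¹) * (t * c * t⁻¹) ^ j := by
        rw [conj_pow]; group
      have e3 : t * x * t⁻¹ = x * c := by rw [hc]; group
      rw [e1, ih, e2, hcf, e3, pow_succ']
      group
  have h2 := h1 N
  rw [h.pow, inv_one, mul_one, one_mul] at h2
  have h3 : c ^ N = 1 := mul_eq_left.1 h2.symm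
  obtain ⟨a, ha⟩ := pow_of_mem h.two (hle (subset_closure ⟨x, hx, hc⟩))
  have h4 : c = 1 := by
    apply eq_one_of_pow_coprime (m := N) (n := 2 ^ a) _ h3 ha
    exact Nat.Coprime.pow_right _ ((Nat.coprime_two_right).2 h.oddN)
  rw [hc, inv_mul_eq_one] at h4
  exact h4.symm

lemma MinSit.sqs_ne (h : MinSit Q t N) : sqs Q ≠ Q := by
  intro he
  obtain ⟨x, hx, hxt⟩ := h.ex
  have hnt : Nontrivial Q := by
    refine ⟨⟨⟨x, hx⟩, 1, fun h1 => ?_⟩⟩
    have h2 : x = 1 := congrArg Subtype.val h1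
    rw [h2] at hxt
    apply hxt
    group
  obtain ⟨ψ, hψ, y, hy⟩ := exists_quad h.two hnt
  have h1 : sqs Q ≤ ψ.ker.map Q.subtype := by
    refine (closure_le _).2 ?_
    rintro _ ⟨x, hx, rfl⟩
    exact ⟨⟨x, hx⟩ ^ 2, hψ _, rfl⟩
  rw [he] at h1
  obtain ⟨w, hw, hwy⟩ := h1 y.2
  have : w = y := Subtype.ext hwy
  rw [this] at hw
  exact hy hw

lemma MinSit.sqs_fix (h : MinSit Q t N) {x : G} (hx : x ∈ sqs Q) : t * x * t⁻¹ = x := by
  refine h.prop (sqs Q) sqs_le ?_ h.sqs_ne x hx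
  intro y hy
  unfold sqs at hy ⊢
  induction hy using closure_induction with
  | mem y hy =>
    obtain ⟨x, hx, rfl⟩ := hy
    refine subset_closure ⟨t * x * t⁻¹, h.conj_mem hx, ?_⟩
    rw [conj_pow]
  | one => rw [mul_one, mul_inv_cancel]; exact one_mem _
  | mul a b _ _ ha hb =>
    have e : t * (a * b) * t⁻¹ = (t * a * t⁻¹) * (t * b * t⁻¹) := by group
    rw [e]; exact mul_mem ha hb
  | inv a _ ha =>
    have e : t * a⁻¹ * t⁻¹ = (t * a * t⁻¹)⁻¹ := by group
    rw [e]; exact inv_mem ha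

/-- elements of `Q` commuting with `t` are central -/
lemma MinSit.fix_central (h : MinSit Q t N) {c : G} (hc : c ∈ Q) (hct : t * c * t⁻¹ = c) :
    c ∈ center G := by
  have h1 : brk Q t ≤ centralizer ({c} : Set G) := by
    refine (closure_le _).2 ?_
    rintro _ ⟨x, hx, rfl⟩
    change _ ∈ centralizer ({c} : Set G)
    rw [mem_centralizer_singleton_iff]
    have h2 : t * (x * c * x⁻¹) * t⁻¹ = x * c * x⁻¹ := by
      have h3 : x * c * x⁻¹ = (x * c * x⁻¹ * c⁻¹) * c := by group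
      have h4 : t * (x * c * x⁻¹) * t⁻¹ = (t * (x * c * x⁻¹ * c⁻¹) * t⁻¹) * (t * c * t⁻¹) := by
        group
      rw [h4, h.sqs_fix (comm_mem_sqs hx hc), hct]
      group
    have h5 : t * (x * c * x⁻¹) * t⁻¹ = (t * x * t⁻¹) * c * (t * x * t⁻¹)⁻¹ := by
      have h6 : t * (x * c * x⁻¹) * t⁻¹ = (t * x * t⁻¹) * (t * c * t⁻¹) * (t * x * t⁻¹)⁻¹ := by
        group
      rw [h6, hct]
    rw [h5, mul_inv_eq_iff_eq_mul] at h2
    have h7 : x⁻¹ * (t * x * t⁻¹) * c = x⁻¹ * ((t * x * t⁻¹) * c) := by group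
    rw [h7, h2]
    group
  rw [h.brk_eq] at h1
  have h2 : (⊤ : Subgroup G) ≤ centralizer ({c} : Set G) := by
    rw [← h.gen]
    refine sup_le h1 ?_
    rw [zpowers_le, mem_centralizer_singleton_iff]
    have := mul_inv_eq_iff_eq_mul.1 hct
    exact this
  rw [mem_center_iff]
  intro g
  exact mem_centralizer_singleton_iff.1 (h2 (mem_top g))

lemma MinSit.sqs_central (h : MinSit Q t N) {c : G} (hc : c ∈ sqs Q) : c ∈ center G :=
  h.fix_central (sqs_le hc) (h.sqs_fix hc)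

/-- elements of `Q` commuting with `t` are products of squares -/
lemma MinSit.fix_mem (h : MinSit Q t N) {c : G} (hc : c ∈ Q) (hct : t * c * t⁻¹ = c) :
    c ∈ sqs Q := by
  classical
  by_contra hcs
  have hn : ((sqs Q).subgroupOf Q).Normal := by
    constructor
    intro n hn g
    rw [mem_subgroupOf] at hn ⊢
    have h1 := mem_center_iff.1 (h.sqs_central hn) (g : G)
    have h2 : ((g * n * g⁻¹ : Q) : G) = n := by
      push_cast
      rw [h1]; group
    rw [h2]; exact hn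
  obtain ⟨ψ, hψ, hψc⟩ := exists_quad_sep ((sqs Q).subgroupOf Q) (fun x => by
    rw [mem_subgroupOf]; exact sq_mem x.2) hn (c := ⟨c, hc⟩) (by rw [mem_subgroupOf]; exact hcs)
  let τ := conjHom Q h.norm
  have hτN : ∀ x, τ^[N] x = x := by
    intro x
    apply Subtype.ext
    rw [conjHom_iterate, h.pow]
    simp
  let ν : Q →* ℂˣ :=
    { toFun := fun x => ∏ i ∈ Finset.range N, ψ (τ^[i] x)
      map_one' := by
        apply Finset.prod_eq_one
        intro i _
        rw [iterate_map_one, map_one]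
      map_mul' := by
        intro x y
        rw [← Finset.prod_mul_distrib]
        refine Finset.prod_congr rfl fun i _ => ?_
        rw [iterate_map_mul, map_mul] }
  have hν : ∀ x, ν x = ∏ i ∈ Finset.range N, ψ (τ^[i] x) := fun x => rfl
  have hinv : ∀ x, ν (τ x) = ν x := by
    intro x
    have h1 := Finset.prod_range_succ (fun i => ψ (τ^[i] x)) N
    have h2 := Finset.prod_range_succ' (fun i => ψ (τ^[i] x)) N
    rw [h1] at h2
    simp only [hτN, Function.iterate_zero, id_eq, Function.iterate_succ_apply] at h2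
    have h3 := mul_right_cancel h2
    rw [hν, hν]
    exact h3.symm
  have hD : brk Q t ≤ ν.ker.map Q.subtype := by
    refine (closure_le _).2 ?_
    rintro _ ⟨x, hx, rfl⟩
    refine ⟨⟨x, hx⟩⁻¹ * τ ⟨x, hx⟩, ?_, rfl⟩
    change ν (⟨x, hx⟩⁻¹ * τ ⟨x, hx⟩) = 1
    rw [map_mul, hinv, map_inv, inv_mul_cancel]
  rw [h.brk_eq] at hD
  obtain ⟨w, hw, hwc⟩ := hD hc
  have hwc' : w = ⟨c, hc⟩ := Subtype.ext hwc
  rw [hwc'] at hw
  have hfc : ∀ i : ℕ, τ^[i] ⟨c, hc⟩ = ⟨c, hc⟩ := by
    intro i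
    induction i with
    | zero => rfl
    | succ i ih =>
      rw [Function.iterate_succ_apply', ih]
      exact Subtype.ext hct
  have h1 : ν ⟨c, hc⟩ = ψ ⟨c, hc⟩ ^ N := by
    rw [hν, Finset.prod_congr rfl (fun i _ => by rw [hfc i]), Finset.prod_const, Finset.card_range]
  have h2 : ψ ⟨c, hc⟩ ^ 2 = 1 := by
    rw [← map_pow]
    apply hψ
    rw [mem_subgroupOf]
    exact sq_mem hc
  have h3 : ψ ⟨c, hc⟩ ^ N = 1 := by rw [← h1]; exact hw
  apply hψc
  exact eq_one_of_pow_coprime (m := 2) (n := N) ((Nat.coprime_two_left).2 h.oddN) h2 h3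

end minimal

end Pool.Agent.H701.CP
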