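import Mathlib
import Pool.Agent.H701.CP.Tw

/-!
# Elements of odd order act trivially on two-subgroups modulo the kernel
-/

set_option autoImplicit false
set_option linter.unusedSectionVars false

namespace Pool.Agent.H701.CP

open Subgroup Pool.Agent.H302R2 Pool.Agent.H541R3.ART Pool.Agent.W446.AS Pool.Agent.TH820

/-- the multiplicity of a constituent is positive -/
lemma sum_constituent {A : Type} [Group A] [Finite A] [Fintype A] {ι : Type} [Fintype ι]
    {θ : A → ℂ} {ψ : ι → A →* ℂˣ} {n : ι → ℕ}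
    (hdec : ∀ a, θ a = ∑ i, (n i : ℂ) * ((ψ i a : ℂˣ) : ℂ)) {i : ι} (hi : n i ≠ 0) :
    ∑ a : A, θ a * (((ψ i a)⁻¹ : ℂˣ) : ℂ) ≠ 0 := by
  classical
  have h1 : ∀ j, ∑ a : A, ((ψ j a : ℂˣ) : ℂ) * (((ψ i a)⁻¹ : ℂˣ) : ℂ)
      = if ψ j = ψ i then (Nat.card A : ℂ) else 0 := by
    intro j
    by_cases h : ψ j = ψ i
    · rw [if_pos h, h]
      have : ∀ a : A, ((ψ i a : ℂˣ) : ℂ) * (((ψ i a)⁻¹ : ℂˣ) : ℂ) = 1 := by
        intro a
        rw [← Units.val_mul, mul_inv_cancel, Units.val_one]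
      rw [Finset.sum_congr rfl (fun a _ => this a)]
      simp
    · rw [if_neg h]
      have h2 : ψ j * (ψ i)⁻¹ ≠ 1 := by
        intro h3
        exact h (mul_inv_eq_one.1 h3)
      have h3 := finsum_char_eq_zero (ψ j * (ψ i)⁻¹) h2
      rw [finsum_eq_sum_of_fintype] at h3
      rw [← h3]
      refine Finset.sum_congr rfl fun a _ => ?_
      rw [MonoidHom.mul_apply, MonoidHom.inv_apply, Units.val_mul]
  have h5 : ∑ a : A, θ a * (((ψ i a)⁻¹ : ℂˣ) : ℂ)
      = ((∑ j, if ψ j = ψ i then n j else 0 : ℕ) : ℂ) * Nat.card A := by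
    simp only [hdec, Finset.sum_mul, mul_assoc]
    rw [Finset.sum_comm]
    have h4 : ∀ j, ∑ a : A, (n j : ℂ) * (((ψ j a : ℂˣ) : ℂ) * (((ψ i a)⁻¹ : ℂˣ) : ℂ))
        = (if ψ j = ψ i then (n j : ℂ) else 0) * Nat.card A := by
      intro j
      rw [← Finset.mul_sum, h1]
      by_cases h : ψ j = ψ i
      · rw [if_pos h, if_pos h]
      · rw [if_neg h, if_neg h, mul_zero, zero_mul]
    rw [Finset.sum_congr rfl (fun j _ => h4 j), ← Finset.sum_mul]
    congr 1
    push_cast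
    rfl
  rw [h5]
  have h6 : n i ≤ ∑ j, if ψ j = ψ i then n j else 0 := by
    have h3 := Finset.single_le_sum (f := fun j => if ψ j = ψ i then n j else 0)
      (fun j _ => Nat.zero_le _) (Finset.mem_univ i)
    simpa using h3
  have h7 : (∑ j, if ψ j = ψ i then n j else 0 : ℕ) ≠ 0 := by omega
  exact mul_ne_zero (by exact_mod_cast h7) (by exact_mod_cast Nat.card_pos.ne')

lemma unit_sq {u : ℂˣ} (h : u ^ 2 = 1) : u = 1 ∨ u = -1 := by
  have h1 : ((u : ℂˣ) : ℂ) ^ 2 = 1 := by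
    rw [← Units.val_pow_eq_pow_val, h, Units.val_one]
  have h3 : (((u : ℂˣ) : ℂ) - 1) * (((u : ℂˣ) : ℂ) + 1) = 0 := by linear_combination h1
  rcases mul_eq_zero.1 h3 with h2 | h2
  · exact Or.inl (Units.ext (by rw [Units.val_one]; linear_combination h2))
  · exact Or.inr (Units.ext (by rw [Units.val_neg, Units.val_one]; linear_combination h2))

section minimal
variable {G : Type} [Group G] [Finite G] {Q : Subgroup G} {t : G} {N : ℕ}

/-- squares of a linear character on a group of class two -/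
lemma MinSit.lam_sq (h : MinSit Q t N) (l : sqs Q →* ℂˣ) (x : sqs Q) : l x ^ 2 = 1 := by
  have hcen : ∀ {c : G}, c ∈ sqs Q → ∀ g : G, g * c = c * g := fun {c} hc =>
    mem_center_iff.1 (h.sqs_central hc)
  let q : Q →* ℂˣ :=
    { toFun := fun x => l ⟨(x : G) ^ 2, sq_mem x.2⟩ ^ 2
      map_one' := by
        have : (⟨((1 : Q) : G) ^ 2, sq_mem (1 : Q).2⟩ : sqs Q) = 1 := Subtype.ext (by simp)
        rw [this, map_one, one_pow]
      map_mul' := by
        intro x y
        -- `y x = x y w`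
        set w : G := (y : G)⁻¹ * (x : G)⁻¹ * y * x with hw
        have hwm : w ∈ sqs Q := by
          have h1 := comm_mem_sqs (Q := Q) (inv_mem y.2) (inv_mem x.2)
          rwa [inv_inv, inv_inv] at h1
        have h1 : (y : G) * x = x * y * w := by rw [hw]; group
        have h2 : ((x * y : Q) : G) ^ 2 = (x : G) ^ 2 * (y : G) ^ 2 * w := by
          calc ((x * y : Q) : G) ^ 2 = x * ((y : G) * x) * y := by
                rw [Subgroup.coe_mul, pow_two]; group
            _ = x * x * y * (w * y) := by rw [h1]; group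
            _ = x * x * y * (y * w) := by rw [hcen hwm]
            _ = (x : G) ^ 2 * (y : G) ^ 2 * w := by rw [pow_two, pow_two]; group
        have h3 : w ^ 2 = 1 := by
          have h4 : (y : G) ^ 2 * x = x * (y : G) ^ 2 * w ^ 2 := by
            calc (y : G) ^ 2 * x = y * (y * x) := by rw [pow_two]; group
              _ = y * (x * y * w) := by rw [h1]
              _ = (y * x) * y * w := by group
              _ = (x * y * w) * y * w := by rw [h1]
              _ = x * y * (w * y) * w := by group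
              _ = x * y * (y * w) * w := by rw [← hcen hwm (y : G)]
              _ = x * (y : G) ^ 2 * w ^ 2 := by rw [pow_two, pow_two]; group
          rw [← hcen (sq_mem y.2)] at h4
          exact mul_eq_left.1 h4.symm
        have h5 : (⟨((x * y : Q) : G) ^ 2, sq_mem (x * y : Q).2⟩ : sqs Q)
            = ⟨(x : G) ^ 2, sq_mem x.2⟩ * ⟨(y : G) ^ 2, sq_mem y.2⟩ * ⟨w, hwm⟩ :=
          Subtype.ext h2
        have h6 : l ⟨w, hwm⟩ ^ 2 = 1 := by
          rw [← map_pow]
          have : (⟨w, hwm⟩ : sqs Q) ^ 2 = 1 := Subtype.ext h3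
          rw [this, map_one]
        rw [h5, map_mul, map_mul, mul_pow, mul_pow, h6, mul_one] }
  have hq : ∀ x : Q, q x = l ⟨(x : G) ^ 2, sq_mem x.2⟩ ^ 2 := fun x => rfl
  have hinv : ∀ x : Q, q (conjHom Q h.norm x) = q x := by
    intro x
    rw [hq, hq]
    congr 3
    change (t * (x : G) * t⁻¹) ^ 2 = (x : G) ^ 2
    rw [conj_pow]
    exact h.sqs_fix (sq_mem x.2)
  have hD : brk Q t ≤ q.ker.map Q.subtype := by
    refine (closure_le _).2 ?_
    rintro _ ⟨x, hx, rfl⟩
    refine ⟨⟨x, hx⟩⁻¹ * conjHom Q h.norm ⟨x, hx⟩, ?_, rfl⟩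
    change q (⟨x, hx⟩⁻¹ * conjHom Q h.norm ⟨x, hx⟩) = 1
    rw [map_mul, hinv, map_inv, inv_mul_cancel]
  rw [h.brk_eq] at hD
  have hq1 : ∀ x : Q, q x = 1 := by
    intro x
    obtain ⟨w, hw, hwx⟩ := hD x.2
    have : w = x := Subtype.ext hwx
    rw [this] at hw
    exact hw
  have h1 : sqs Q ≤ (l ^ 2).ker.map (sqs Q).subtype := by
    refine (closure_le _).2 ?_
    rintro _ ⟨x, hx, rfl⟩
    refine ⟨⟨x ^ 2, sq_mem hx⟩, ?_, rfl⟩
    exact hq1 ⟨x, hx⟩
  obtain ⟨w, hw, hwx⟩ := h1 x.2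
  have : w = x := Subtype.ext hwx
  rw [this] at hw
  exact hw

/-- **The minimal situation is impossible.** -/
theorem MinSit.false (h : MinSit Q t N) {θ : G → ℂ} (hc : Central θ) (hNT : NT θ) {r : ℕ}
    (hr : θ 1 = r) {m k : ℕ} (hm : m.Prime) (hm2 : m ≠ 2) (hmr : r < 2 * m) (hk : t ^ m ^ k = 1)
    (hfaith : ∀ x ∈ Q, θ x = θ 1 → x = 1) : False := by
  classical
  have : Fact (Nat.Prime 2) := ⟨Nat.prime_two⟩
  have hθ := hc.hb
  have hcen : ∀ {c : G}, c ∈ sqs Q → ∀ g : G, g * c = c * g := fun {c} hc =>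
    mem_center_iff.1 (h.sqs_central hc)
  -- `Q` is not abelian
  obtain ⟨a, ha, b, hb, hab⟩ : ∃ a ∈ Q, ∃ b ∈ Q, a * b * a⁻¹ * b⁻¹ ≠ 1 := by
    by_contra hcon
    push Not at hcon
    obtain ⟨x, hx, hxt⟩ := h.ex
    have h1 := act_real_sub hc hr h.two (fun x hx y hy => by rw [hcon x hx y hy]) hm hm2 hmr
      h.norm hk hx
    have h2 := hfaith _ (mul_mem (inv_mem hx) (h.conj_mem hx)) h1
    rw [inv_mul_eq_one] at h2
    exact hxt h2.symm
  set c₀ := a * b * a⁻¹ * b⁻¹ with hc₀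
  have hc₀m : c₀ ∈ sqs Q := comm_mem_sqs ha hb
  obtain ⟨ι, _, ψ, n, hdec⟩ := (hθ.comp (sqs Q).subtype).comm_decomp (fun x y => by
    apply Subtype.ext
    exact hcen y.2 x)
  obtain ⟨i, hi, hic⟩ : ∃ i, n i ≠ 0 ∧ ψ i ⟨c₀, hc₀m⟩ ≠ 1 := by
    by_contra hcon
    push Not at hcon
    apply hab
    apply hfaith c₀ (sqs_le hc₀m)
    have h1 := hdec ⟨c₀, hc₀m⟩
    have h2 := hdec 1
    simp only [coe_subtype, OneMemClass.coe_one] at h1 h2
    rw [h1, h2]
    refine Finset.sum_congr rfl fun j _ => ?_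
    by_cases hj : n j = 0
    · rw [hj, Nat.cast_zero, zero_mul, zero_mul]
    · rw [hcon j hj, map_one]
  set l := ψ i with hl
  have hl2 := h.lam_sq l
  have hlc : l ⟨c₀, hc₀m⟩ = -1 := (unit_sq (hl2 _)).resolve_left hic
  -- the kernel
  let N₁ : Subgroup G := l.ker.map (sqs Q).subtype
  have hN₁ : ∀ g : G, g ∈ N₁ ↔ ∃ hg : g ∈ sqs Q, l ⟨g, hg⟩ = 1 := by
    intro g
    constructor
    · rintro ⟨y, hy, rfl⟩
      exact ⟨y.2, hy⟩
    · rintro ⟨hg, h1⟩
      exact ⟨⟨g, hg⟩, h1, rfl⟩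
  have hN₁n : N₁.Normal := by
    constructor
    intro g hg x
    obtain ⟨hg', h1⟩ := (hN₁ g).1 hg
    have h2 : x * g * x⁻¹ = g := by rw [hcen hg' x]; group
    rw [h2]; exact hg
  have hN₁Q : N₁ ≤ Q := fun g hg => sqs_le ((hN₁ g).1 hg).1
  let X := G ⧸ N₁
  let π : G →* X := QuotientGroup.mk' N₁
  have hπ : Function.Surjective π := QuotientGroup.mk'_surjective N₁
  have hπ1 : ∀ g, π g = 1 ↔ g ∈ N₁ := fun g => QuotientGroup.eq_one_iff g
  let z : X := π c₀
  have hz1 : z ≠ 1 := by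
    intro h1
    obtain ⟨hg, h2⟩ := (hN₁ c₀).1 ((hπ1 c₀).1 h1)
    exact hic h2
  have hπz : ∀ g, π g = z ↔ ∃ hg : g ∈ sqs Q, l ⟨g, hg⟩ = -1 := by
    intro g
    have h1 : π g = z ↔ g * c₀⁻¹ ∈ N₁ := by
      rw [← hπ1, map_mul, map_inv, mul_inv_eq_one]
    rw [h1, hN₁]
    constructor
    · rintro ⟨hg, h2⟩
      have hg' : g ∈ sqs Q := by
        have := mul_mem hg hc₀m
        rwa [inv_mul_cancel_right] at this
      refine ⟨hg', ?_⟩
      have h3 : (⟨g, hg'⟩ : sqs Q) = ⟨g * c₀⁻¹, hg⟩ * ⟨c₀, hc₀m⟩ :=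
        Subtype.ext (by simp)
      rw [h3, map_mul, h2, hlc, one_mul]
    · rintro ⟨hg, h2⟩
      refine ⟨mul_mem hg (inv_mem hc₀m), ?_⟩
      have h3 : (⟨g * c₀⁻¹, mul_mem hg (inv_mem hc₀m)⟩ : sqs Q) = ⟨g, hg⟩ * ⟨c₀, hc₀m⟩⁻¹ :=
        Subtype.ext (by simp)
      rw [h3, map_mul, map_inv, h2, hlc]
      exact mul_inv_cancel _
  have hπs : ∀ {g : G}, g ∈ sqs Q → π g = 1 ∨ π g = z := by
    intro g hg
    rcases unit_sq (hl2 ⟨g, hg⟩) with h1 | h1
    · exact Or.inl ((hπ1 g).2 ((hN₁ g).2 ⟨hg, h1⟩))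
    · exact Or.inr ((hπz g).2 ⟨hg, h1⟩)
  have hT : Twisted X (Q.map π) z (π t) := by
    refine ⟨h.two.map π, h.normal.map π hπ, ?_, ⟨m, k, hm, hm2, by rw [← map_pow, hk, map_one]⟩,
      ?_, hz1, ⟨c₀, sqs_le hc₀m, rfl⟩, ?_, ?_, ?_⟩
    · have h1 := congrArg (Subgroup.map π) h.gen
      rw [Subgroup.map_sup, MonoidHom.map_zpowers, Subgroup.map_top_of_surjective π hπ] at h1
      exact h1
    · rw [mem_center_iff]
      intro g
      obtain ⟨g, rfl⟩ := hπ g
      change π g * π c₀ = π c₀ * π g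
      rw [← map_mul, ← map_mul, hcen hc₀m]
    · rintro _ ⟨x, hx, rfl⟩
      rw [← map_pow]
      exact hπs (sq_mem hx)
    · refine ⟨π a, ⟨a, ha, rfl⟩, π b, ⟨b, hb, rfl⟩, fun h1 => hz1 ?_⟩
      change π (a * b * a⁻¹ * b⁻¹) = 1
      rw [map_mul, map_mul, map_mul, h1, map_inv, map_inv]
      group
    · intro R hR hRt
      by_cases hR' : R.comap π ⊓ Q = Q
      · left
        apply le_antisymm hR
        rintro _ ⟨x, hx, rfl⟩
        have : x ∈ R.comap π ⊓ Q := by rw [hR']; exact hx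
        exact this.1
      · right
        have h1 := h.prop (R.comap π ⊓ Q) inf_le_right (by
          intro x hx
          refine ⟨?_, h.conj_mem hx.2⟩
          change π (t * x * t⁻¹) ∈ R
          rw [map_mul, map_mul, map_inv]
          exact hRt _ hx.1) hR'
        intro y hy
        obtain ⟨x, hx, rfl⟩ := hR hy
        exact hπs (h.fix_mem hx (h1 x ⟨hy, hx⟩))
  have h1 := hNT ⊤ X (π.comp (⊤ : Subgroup G).subtype) (Q.map π) z (π t) (by
    intro x
    obtain ⟨g, rfl⟩ := hπ x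
    exact ⟨⟨g, mem_top g⟩, rfl⟩) hT
  have : Fintype G := Fintype.ofFinite G
  have : Fintype (sqs Q) := Fintype.ofFinite _
  have h2 : ∑ g : G, θ g * cz z (π g) = 0 := by
    have h3 : ∑ᶠ h : (⊤ : Subgroup G), θ h * cz z ((π.comp (⊤ : Subgroup G).subtype) h)
        = ∑ᶠ g : G, θ g * cz z (π g) :=
      finsum_eq_of_bijective (fun h : (⊤ : Subgroup G) => (h : G))
        (⟨Subtype.val_injective, fun g => ⟨⟨g, mem_top g⟩, rfl⟩⟩) (fun _ => rfl)
    rw [h3, finsum_eq_sum_of_fintype] at h1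
    exact h1
  have h3 : ∑ g : G, θ g * cz z (π g) = ∑ x : sqs Q, θ x * (((l x)⁻¹ : ℂˣ) : ℂ) := by
    symm
    have h4 : ∀ x : sqs Q, θ x * (((l x)⁻¹ : ℂˣ) : ℂ) = θ x * cz z (π x) := by
      intro x
      congr 1
      rcases unit_sq (hl2 x) with h5 | h5
      · have h6 : π x = 1 := (hπ1 _).2 ((hN₁ _).2 ⟨x.2, h5⟩)
        rw [cz, if_pos h6, h5]
        simp
      · have h6 : π x = z := (hπz _).2 ⟨x.2, h5⟩
        rw [cz, h6, if_neg hz1, if_pos rfl, h5]
        simp
    rw [Finset.sum_congr rfl (fun x _ => h4 x)]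
    have h5 : ∑ x : sqs Q, θ x * cz z (π x) = ∑ g ∈ Finset.univ.filter (fun g => g ∈ sqs Q),
        θ g * cz z (π g) := by
      rw [Finset.sum_subtype (Finset.univ.filter (fun g => g ∈ sqs Q)) (p := fun g => g ∈ sqs Q)
        (by intro x; simp)]
    rw [h5]
    apply Finset.sum_subset (Finset.subset_univ _)
    intro g _ hg
    have hg' : g ∉ sqs Q := by simpa using hg
    have h6 : π g ≠ 1 := fun h7 => hg' ((hN₁ g).1 ((hπ1 g).1 h7)).1
    have h7 : π g ≠ z := fun h7 => hg' ((hπz g).1 h7).1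
    rw [cz, if_neg h6, if_neg h7, mul_zero]
  rw [h3] at h2
  exact sum_constituent hdec hi h2

end minimal

/-- **Elements of odd prime power order act trivially on two-subgroups, modulo the kernel**, if
there is no twisted section. -/
theorem act_two_real : ∀ (n : ℕ) (G : Type) [Group G] [Finite G], Nat.card G = n →
    ∀ (θ : G → ℂ) (_ : Central θ) (_ : Virt θ) (_ : NT θ) (r : ℕ) (_ : θ 1 = r) (m : ℕ)
      (_ : m.Prime) (_ : m ≠ 2) (_ : r < 2 * m) (Q : Subgroup G) (_ : IsPGroup 2 Q) (t : G)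
      (_ : t ∈ normalizer (Q : Set G)) (k : ℕ) (_ : t ^ m ^ k = 1) (x : G) (_ : x ∈ Q),
      θ (x⁻¹ * (t * x * t⁻¹)) = θ 1 := by
  intro n
  induction n using Nat.strong_induction_on with
  | _ n ih =>
  intro G _ _ hGn θ hc hv hNT r hr m hm hm2 hmr Q hQ t ht k hk x hx
  have : Fact (Nat.Prime 2) := ⟨Nat.prime_two⟩
  have hθ := hc.hb
  have hodd : Odd (m ^ k) := (hm.odd_of_ne_two hm2).pow
  -- proper subgroups
  have hsub : ∀ R : Subgroup G, IsPGroup 2 R → t ∈ normalizer (R : Set G) →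
      R ⊔ zpowers t ≠ ⊤ → ∀ x ∈ R, θ (x⁻¹ * (t * x * t⁻¹)) = θ 1 := by
    intro R hR htR hne x hx
    set E : Subgroup G := R ⊔ zpowers t with hE
    have htE : t ∈ E := mem_sup_right (mem_zpowers t)
    have hxE : x ∈ E := mem_sup_left hx
    have hlt : Nat.card E < n := by
      rw [← hGn]
      apply lt_of_le_of_ne (Subgroup.card_le_card_group _)
      intro h
      exact hne (Subgroup.eq_top_of_card_eq _ h)
    have hR' : IsPGroup 2 (R.subgroupOf E) := by
      rintro ⟨⟨y, hyE⟩, hyR⟩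
      obtain ⟨j, hj⟩ := pow_of_mem hR (show y ∈ R from hyR)
      refine ⟨j, ?_⟩
      apply Subtype.ext
      apply Subtype.ext
      simpa using hj
    have h1 := ih _ hlt E rfl (fun x => θ x) (hc.comp E.subtype) (hv.comp E.subtype)
      (hNT.sub E.subtype E.subtype_injective) r (by simpa using hr) m hm hm2 hmr
      (R.subgroupOf E) hR' ⟨t, htE⟩ (by
        rw [mem_normalizer_iff]
        intro y
        rw [mem_subgroupOf, mem_subgroupOf]
        exact mem_normalizer_iff.1 htR y) k (by apply Subtype.ext; simpa using hk) ⟨x, hxE⟩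
      (by rw [mem_subgroupOf]; exact hx)
    exact h1
  by_cases htop : Q ⊔ zpowers t = ⊤
  swap
  · exact hsub Q hQ ht htop x hx
  have hnorm : ∀ g : G, g ∈ normalizer (Q : Set G) := by
    intro g
    have h1 : Q ⊔ zpowers t ≤ normalizer (Q : Set G) :=
      sup_le le_normalizer (by rw [zpowers_le]; exact ht)
    rw [htop] at h1
    exact h1 (mem_top g)
  have hQn : Q.Normal := ⟨fun y hy g => (mem_normalizer_iff.1 (hnorm g) y).1 hy⟩
  let K := kerIn hθ hQ
  have hKn : K.Normal :=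
    ⟨fun y hy g => (mem_normalizer_iff.1 (kerIn_norm hθ hQ (hnorm g)) y).1 hy⟩
  by_cases hK : K = ⊥
  swap
  · -- descend
    let π : G →* G ⧸ K := QuotientGroup.mk' K
    have hπ : Function.Surjective π := QuotientGroup.mk'_surjective K
    obtain ⟨τ, hτ1, hτ2, hτ3⟩ := exists_push hθ hv K (fun n hn => hn.2)
    have hlt : Nat.card (G ⧸ K) < n := by
      rw [← hGn, Subgroup.card_eq_card_quotient_mul_card_subgroup K]
      have h1 : 1 < Nat.card K := K.one_lt_card_iff_ne_bot.mpr hK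
      have h3 : 0 < Nat.card (G ⧸ K) := Nat.card_pos
      nlinarith
    have hτ0 : τ 1 = θ 1 := by rw [← map_one π, hτ3]
    have hfun : (fun x => τ (π x)) = θ := funext hτ3
    have h1 := ih _ hlt (G ⧸ K) rfl τ (hc.descend π hπ hτ1 hτ3) hτ2
      (NT.quot π hπ (by rw [hfun]; exact hNT)) r (by rw [hτ0, hr]) m hm hm2 hmr (Q.map π)
      (hQ.map π) (π t) (by
        have := hQn.map π hπ
        rw [Subgroup.normalizer_eq_top]
        exact mem_top _) k (by rw [← map_pow, hk, map_one]) (π x) ⟨x, hx, rfl⟩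
    rw [← hτ3, ← hτ0, ← h1]
    simp only [map_mul, map_inv]
    rfl
  by_contra hne
  have hfaith : ∀ x ∈ Q, θ x = θ 1 → x = 1 := by
    intro y hy h1
    have h2 : y ∈ K := ⟨hy, h1⟩
    rw [hK] at h2
    exact Subgroup.mem_bot.1 h2
  have hmin : MinSit Q t (m ^ k) := by
    refine ⟨hQ, hQn, hodd, hk, htop, ?_, x, hx, ?_⟩
    · intro R hRQ hRt hRne y hy
      have hR2 : IsPGroup 2 R := hQ.to_le hRQ
      have htR : t ∈ normalizer (R : Set G) := Subgroup.mem_normalizer_fintype hRt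
      have h1 := hsub R hR2 htR (by
        intro htop'
        apply hRne
        apply le_antisymm hRQ
        intro q hq
        have h2 : q ∈ R ⊔ zpowers t := by rw [htop']; exact mem_top q
        obtain ⟨a, ha, j, rfl⟩ := mem_sup_zpowers htR h2
        have h3 : t ^ j ∈ Q := by
          have := mul_mem (inv_mem (hRQ ha)) hq
          rwa [inv_mul_cancel_left] at this
        obtain ⟨b, hb⟩ := pow_of_mem hQ h3
        have h4 : t ^ j = 1 := by
          apply eq_one_of_pow_coprime (m := m ^ k) (n := 2 ^ b) _ _ hb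
          · exact Nat.Coprime.pow_right _ ((Nat.coprime_two_right).2 hodd)
          · rw [← zpow_natCast, ← zpow_mul, mul_comm, zpow_mul, zpow_natCast, hk, one_zpow]
        rw [h4, mul_one]
        exact ha) y hy
      have h2 := hfaith _ (mul_mem (inv_mem (hRQ hy)) (hQn.conj_mem y (hRQ hy) t)) h1
      rw [inv_mul_eq_one] at h2
      exact h2.symm
    · intro h1
      apply hne
      rw [h1, inv_mul_cancel]
  exact hmin.false hc hNT hr hm hm2 hmr hk hfaith

end Pool.Agent.H701.CP
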