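import Mathlib
import Pool.Agent.H701.CP.Tx
import Pool.Graph.R_pool_sql_team_seeded_2aa45f1a.Q92.DZ.Fin

/-!
# Central Heilbronn functions without twisted sections
-/

set_option autoImplicit false
set_option linter.unusedSectionVars false

namespace Pool.Agent.H701.CP

open Subgroup Pool.Agent.H302R2 Pool.Agent.H541R3.ART Pool.Agent.W446.AS Pool.Agent.TH820
open scoped commutatorElement

/-- the subgroup `O²(G)` generated by the elements of odd order -/
def oddGen (G : Type) [Group G] : Subgroup G := closure {x | ∃ m : ℕ, Odd m ∧ x ^ m = 1}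

section
variable {G : Type} [Group G] [Finite G] {θ : G → ℂ}

instance oddGen_normal : (oddGen G).Normal := by
  constructor
  intro n hn g
  unfold oddGen at hn ⊢
  induction hn using closure_induction with
  | mem x hx =>
    obtain ⟨m, hm, hx⟩ := hx
    refine subset_closure ⟨m, hm, ?_⟩
    rw [conj_pow, hx, mul_one, mul_inv_cancel]
  | one => simp
  | mul x y _ _ hx hy =>
    have e : g * (x * y) * g⁻¹ = (g * x * g⁻¹) * (g * y * g⁻¹) := by group
    rw [e]; exact mul_mem hx hy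
  | inv x _ hx =>
    have e : g * x⁻¹ * g⁻¹ = (g * x * g⁻¹)⁻¹ := by group
    rw [e]; exact inv_mem hx

lemma pow_mem_oddGen (g : G) : ∃ k : ℕ, g ^ 2 ^ k ∈ oddGen G := by
  obtain ⟨k, m, hm, h⟩ := Nat.exists_eq_two_pow_mul_odd (orderOf_pos g).ne'
  refine ⟨k, subset_closure ⟨m, hm, ?_⟩⟩
  rw [← pow_mul, ← h, pow_orderOf_eq_one]

lemma oddGen_gen : closure {x : oddGen G | ∃ m : ℕ, Odd m ∧ x ^ m = 1} = ⊤ := by
  have h1 := closure_closure_coe_preimage (k := {x : G | ∃ m : ℕ, Odd m ∧ x ^ m = 1})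
  rw [eq_top_iff]
  refine le_trans (le_of_eq h1.symm) ?_
  apply Subgroup.closure_mono
  rintro x ⟨m, hm, hx⟩
  exact ⟨m, hm, Subtype.ext hx⟩

/-- primes dividing the order -/
lemma dvd_card_of_pow {m : ℕ} (hm : m.Prime) {y : G} {j : ℕ} (hy : y ^ m ^ j = 1) (hy1 : y ≠ 1) :
    m ∣ Nat.card G := by
  obtain ⟨i, -, hi⟩ := (Nat.dvd_prime_pow hm).1 (orderOf_dvd_of_pow_eq_one hy)
  have hi0 : i ≠ 0 := by
    rintro rfl
    rw [pow_zero, orderOf_eq_one_iff] at hi
    exact hy1 hi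
  exact ((dvd_pow_self m hi0).trans (hi ▸ dvd_rfl)).trans (orderOf_dvd_natCard y)

/-- **Two-elements are in the kernel** if the group is generated by elements of odd order. -/
theorem two_elements (hc : Central θ) (hv : Virt θ) (hNT : NT θ) {r : ℕ} (hr : θ 1 = r)
    (hp : ∀ p : ℕ, p.Prime → p ≠ 2 → p ∣ Nat.card G → r < 2 * p)
    (hgen : closure {x : G | ∃ m : ℕ, Odd m ∧ x ^ m = 1} = ⊤) (x : G) (k : ℕ)
    (hx : x ^ 2 ^ k = 1) : θ x = θ 1 := by
  have hθ := hc.hb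
  have : Fact (Nat.Prime 2) := ⟨Nat.prime_two⟩
  obtain ⟨P⟩ := (inferInstance : Nonempty (Sylow 2 G))
  obtain ⟨g, hg⟩ := exists_conj_mem P hx
  rw [← hθ.conj x g]
  generalize g * x * g⁻¹ = y at hg
  by_contra hy
  let K : Subgroup P :=
    { carrier := {z | θ z = θ 1}
      mul_mem' := fun {a b} ha hb => by
        have := hθ.pgroup_mul P.2 a.2 b.2 ha hb
        simpa using this
      one_mem' := rfl
      inv_mem' := fun {a} ha => by
        have := hθ.inv_of_eq ha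
        simpa using this }
  have hKn : K.Normal := ⟨fun a ha g => by
    change θ ((g * a * g⁻¹ : P) : G) = θ 1
    have : ((g * a * g⁻¹ : P) : G) = g * a * (g : G)⁻¹ := by push_cast; rfl
    rw [this, hθ.conj]; exact ha⟩
  have hK : K ≠ ⊤ := by
    intro h
    have h3 : (⟨y, hg⟩ : P) ∈ K := by rw [h]; exact mem_top _
    exact hy h3
  obtain ⟨ψ, hψ1, z, hz⟩ := exists_lin P.2 K hK hKn
  obtain ⟨φ, hφ1, hφ2⟩ := exists_ext hθ P (by
      intro Q hQ m hm hm2 t ht ⟨j, hj⟩ w hw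
      by_cases ht1 : t = 1
      · subst ht1
        simp
      exact act_two_real _ G rfl θ hc hv hNT r hr m hm hm2
        (hp m hm hm2 (dvd_card_of_pow hm hj ht1)) Q (P.2.to_le hQ) t ht j hj w hw) (extFun ψ)
    (fun a ha b hb => extFun_mul ψ a ha b hb) (fun a ha hθa => by
      rw [extFun_mem ψ ha]
      exact hψ1 ⟨a, ha⟩ hθa)
  have h3 : ∀ x, φ x = 1 := by
    have h4 : (⊤ : Subgroup G) ≤ φ.ker := by
      rw [← hgen, closure_le]
      rintro x ⟨m, hm, hx⟩
      obtain ⟨j, hj⟩ := IsPGroup.iff_card.1 P.2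
      change φ x = 1
      refine eq_one_of_pow_coprime (m := m) (n := 2 ^ j) ?_ ?_ ?_
      · exact Nat.Coprime.pow_right _ ((Nat.coprime_two_right).2 hm)
      · rw [← map_pow, hx, map_one]
      · have := hφ2 x
        rw [hj] at this
        exact this
    exact fun x => h4 (mem_top x)
  have h4 := hφ1 z z.2
  rw [h3, extFun_mem ψ z.2] at h4
  exact hz h4.symm

/-- the kernel inside the group `O²(G)` -/
theorem oddGen_ker (hc : Central θ) (hv : Virt θ) (hNT : NT θ) {r : ℕ} (hr : θ 1 = r)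
    (hp : ∀ p : ℕ, p.Prime → p ≠ 2 → p ∣ Nat.card G → r < 2 * p) :
    (∀ x ∈ oddGen G, ∀ k : ℕ, x ^ 2 ^ k = 1 → θ x = θ 1) ∧
      ∀ g ∈ commutator (oddGen G), θ (g : G) = θ 1 := by
  have hcN := hc.comp (oddGen G).subtype
  have hvN := hv.comp (oddGen G).subtype
  have hNTN := hNT.sub (oddGen G).subtype (oddGen G).subtype_injective
  have hpN : ∀ p : ℕ, p.Prime → p ≠ 2 → p ∣ Nat.card (oddGen G) → r < 2 * p :=
    fun p h1 h2 h3 => hp p h1 h2 (h3.trans (card_subgroup_dvd_card (oddGen G)))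
  have h2 := two_elements hcN hvN hNTN (r := r) (by simpa using hr) hpN oddGen_gen
  refine ⟨fun x hx k hk => ?_, fun g hg => ?_⟩
  · have := h2 ⟨x, hx⟩ k (Subtype.ext hk)
    simpa using this
  · have := commutator_ker_real hcN hvN (r := r) (by simpa using hr) hpN h2 g hg
    simpa using this

/-- the kernel in `O²(G)` as a normal subgroup -/
theorem exists_kernel (hc : Central θ) (hv : Virt θ) (hNT : NT θ) {r : ℕ} (hr : θ 1 = r)
    (hp : ∀ p : ℕ, p.Prime → p ≠ 2 → p ∣ Nat.card G → r < 2 * p) :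
    ∃ N₀ : Subgroup G, N₀.Normal ∧ N₀ ≤ oddGen G ∧ (∀ x, x ∈ N₀ ↔ x ∈ oddGen G ∧ θ x = θ 1) ∧
      (∀ x ∈ oddGen G, ∀ y ∈ oddGen G, x * y * x⁻¹ * y⁻¹ ∈ N₀) ∧
      ∀ x ∈ oddGen G, ∀ k : ℕ, x ^ 2 ^ k = 1 → x ∈ N₀ := by
  obtain ⟨h2, hcm⟩ := oddGen_ker hc hv hNT hr hp
  have hθ := hc.hb
  obtain ⟨ι, _, ψ, n, hdec⟩ := lin_decomp (hθ.comp (oddGen G).subtype) (fun g hg => by
    have := hcm g hg
    simpa using this)
  let N₀ : Subgroup G :=
    { carrier := {x | x ∈ oddGen G ∧ θ x = θ 1}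
      mul_mem' := by
        rintro x y ⟨hx, hx1⟩ ⟨hy, hy1⟩
        refine ⟨mul_mem hx hy, ?_⟩
        have h3 := hdec (⟨x, hx⟩ * ⟨y, hy⟩)
        have h4 := hdec 1
        simp only [coe_subtype, OneMemClass.coe_one] at h3 h4
        change θ (x * y) = _ at h3
        rw [h3, h4]
        refine Finset.sum_congr rfl fun i _ => ?_
        by_cases hi : n i = 0
        · rw [hi, Nat.cast_zero, zero_mul, zero_mul]
        rw [map_mul, const_triv hdec (a := ⟨x, hx⟩) (by simpa using hx1) hi,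
          const_triv hdec (a := ⟨y, hy⟩) (by simpa using hy1) hi, mul_one, map_one]
      one_mem' := ⟨one_mem _, rfl⟩
      inv_mem' := by
        rintro x ⟨hx, hx1⟩
        exact ⟨inv_mem hx, hθ.inv_of_eq hx1⟩ }
  refine ⟨N₀, ⟨fun x hx g => ⟨oddGen_normal.conj_mem x hx.1 g, by rw [hθ.conj]; exact hx.2⟩⟩,
    fun x hx => hx.1, fun x => Iff.rfl, ?_, fun x hx k hk => ⟨hx, h2 x hx k hk⟩⟩
  intro x hx y hy
  have h3 := hcm ⁅(⟨x, hx⟩ : oddGen G), ⟨y, hy⟩⁆
    (Subgroup.commutator_mem_commutator (mem_top _) (mem_top _))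
  rw [commutatorElement_def] at h3
  exact ⟨mul_mem (mul_mem (mul_mem hx hy) (inv_mem hx)) (inv_mem hy), h3⟩

/-- a group whose abelian normal subgroups are central is abelian, if all its elements have a
`2`-power in the centre -/
lemma center_top {X : Type} [Group X] [Finite X]
    (hab : ∀ A : Subgroup X, A.Normal → (∀ a ∈ A, ∀ b ∈ A, a * b = b * a) → A ≤ center X)
    (h2 : ∀ x : X, ∃ k : ℕ, x ^ 2 ^ k ∈ center X) : center X = ⊤ := by
  have : Fact (Nat.Prime 2) := ⟨Nat.prime_two⟩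
  by_contra hne
  have hP : IsPGroup 2 (X ⧸ center X) := by
    intro x
    obtain ⟨g, rfl⟩ := QuotientGroup.mk'_surjective (center X) x
    obtain ⟨k, hk⟩ := h2 g
    exact ⟨k, by rw [← map_pow]; exact (QuotientGroup.eq_one_iff _).2 hk⟩
  have hnt : Nontrivial (X ⧸ center X) := by
    rw [← not_subsingleton_iff_nontrivial]
    intro h
    exact hne (QuotientGroup.subgroup_eq_top_of_subsingleton _ h)
  have hcn := hP.center_nontrivial
  obtain ⟨⟨y, hy⟩, hy1⟩ := exists_ne (1 : center (X ⧸ center X))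
  have hy1' : y ≠ 1 := fun h => hy1 (Subtype.ext h)
  obtain ⟨x, rfl⟩ := QuotientGroup.mk'_surjective (center X) y
  have hzn : (zpowers (QuotientGroup.mk' (center X) x)).Normal := zpowers_normal_of_center hy
  have h3 := hab ((zpowers (QuotientGroup.mk' (center X) x)).comap (QuotientGroup.mk' (center X)))
    inferInstance (by
      have key : ∀ a ∈ (zpowers (QuotientGroup.mk' (center X) x)).comap
          (QuotientGroup.mk' (center X)), ∃ (i : ℤ) (c : X), c ∈ center X ∧ a = x ^ i * c := by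
        intro a ha
        obtain ⟨i, hi⟩ := mem_zpowers_iff.1 (mem_comap.1 ha)
        refine ⟨i, (x ^ i)⁻¹ * a, ?_, by group⟩
        rw [← QuotientGroup.eq_one_iff]
        change QuotientGroup.mk' (center X) ((x ^ i)⁻¹ * a) = 1
        rw [map_mul, map_inv, map_zpow, hi, inv_mul_cancel]
      intro a ha b hb
      obtain ⟨i, c, hc, h4⟩ := key a ha
      obtain ⟨j, d, hd, h5⟩ := key b hb
      exact Pool.Agent.Q92.DZ.comm_of_gen hc hd h4 h5)
  apply hy1'
  exact (QuotientGroup.eq_one_iff x).2 (h3 (mem_comap.2 (mem_zpowers _)))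

/-- a quotient of a subgroup has no frame -/
lemma no_frame (N₀ N : Subgroup G) [N.Normal]
    (hab : ∀ x ∈ N, ∀ y ∈ N, x * y * x⁻¹ * y⁻¹ ∈ N₀) (h2 : ∀ g : G, ∃ k : ℕ, g ^ 2 ^ k ∈ N)
    (H : Subgroup G) (X : Type) [Group X] (g : H →* X) (hg : Function.Surjective g)
    (hker : ∀ x : H, (x : G) ∈ N₀ → g x = 1) (F : Subgroup X) (d : ℕ) (hF : Frame X F d) :
    False := by
  have hfin : Finite X := Finite.of_surjective _ hg
  have h1 : (N.subgroupOf H).map g ≤ center X := by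
    apply hF.abel _ (Subgroup.Normal.map inferInstance g hg)
    rintro _ ⟨a, ha, rfl⟩ _ ⟨b, hb, rfl⟩
    have h2 : g (a * b * a⁻¹ * b⁻¹) = 1 := hker _ (hab a ha b hb)
    rw [map_mul, map_mul, map_mul, map_inv, map_inv] at h2
    rw [mul_inv_eq_one, mul_inv_eq_iff_eq_mul] at h2
    exact h2
  have h4 : center X = ⊤ := by
    apply center_top hF.abel
    intro x
    obtain ⟨y, rfl⟩ := hg x
    obtain ⟨k, hk⟩ := h2 (y : G)
    refine ⟨k, ?_⟩
    rw [← map_pow]
    exact h1 ⟨y ^ 2 ^ k, by simpa [mem_subgroupOf] using hk, rfl⟩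
  have h5 : F = ⊤ := by
    rw [eq_top_iff, ← h4]
    exact hF.le
  have h6 := hF.card
  rw [h5, h4] at h6
  have h7 : 0 < Nat.card (⊤ : Subgroup X) := Nat.card_pos
  have h8 := hF.one_lt
  have h9 : 2 ^ 2 ≤ d ^ 2 := Nat.pow_le_pow_left h8 2
  have h10 := Nat.mul_le_mul_right (Nat.card (⊤ : Subgroup X)) h9
  rw [← h6] at h10
  omega

theorem free_ab_two (N₀ N : Subgroup G) [N₀.Normal] [N.Normal]
    (hab : ∀ x ∈ N, ∀ y ∈ N, x * y * x⁻¹ * y⁻¹ ∈ N₀) (h2 : ∀ g : G, ∃ k : ℕ, g ^ 2 ^ k ∈ N)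
    (lt : Prop) (r : ℕ) : Free lt r (G ⧸ N₀) := by
  rintro H X _ f hf ⟨F, d, hF, -⟩
  let q := QuotientGroup.mk' N₀
  have hq : Function.Surjective q := QuotientGroup.mk'_surjective N₀
  refine no_frame N₀ N hab h2 (H.comap q) X (f.comp (q.subgroupComap H))
    (hf.comp (q.subgroupComap_surjective_of_surjective H hq)) ?_ F d hF
  intro x hx
  have h1 : q.subgroupComap H x = 1 := by
    apply Subtype.ext
    change q x = 1
    rwa [← MonoidHom.mem_ker, QuotientGroup.ker_mk']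
  rw [MonoidHom.comp_apply, h1, map_one]

/-- solvability of the quotient -/
theorem solvable_ab_two (N₀ N : Subgroup G) [N₀.Normal] [N.Normal]
    (hab : ∀ x ∈ N, ∀ y ∈ N, x * y * x⁻¹ * y⁻¹ ∈ N₀) (h2 : ∀ g : G, ∃ k : ℕ, g ^ 2 ^ k ∈ N) :
    Group.IsSolvable (G ⧸ N₀) := by
  have : Fact (Nat.Prime 2) := ⟨Nat.prime_two⟩
  let q := QuotientGroup.mk' N₀
  have hq : Function.Surjective q := QuotientGroup.mk'_surjective N₀
  let A := N.map q
  have hA : A.Normal := Subgroup.Normal.map inferInstance q hq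
  have h1 : Group.IsSolvable A := by
    apply Group.isSolvable_of_comm
    rintro ⟨_, a, ha, rfl⟩ ⟨_, b, hb, rfl⟩
    apply Subtype.ext
    change q a * q b = q b * q a
    have h3 : q (a * b * a⁻¹ * b⁻¹) = 1 := (QuotientGroup.eq_one_iff _).2 (hab a ha b hb)
    rw [map_mul, map_mul, map_mul, map_inv, map_inv, mul_inv_eq_one, mul_inv_eq_iff_eq_mul] at h3
    exact h3
  have hP : IsPGroup 2 ((G ⧸ N₀) ⧸ A) := by
    intro x
    obtain ⟨y, rfl⟩ := QuotientGroup.mk'_surjective A x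
    obtain ⟨g, rfl⟩ := hq y
    obtain ⟨k, hk⟩ := h2 g
    refine ⟨k, ?_⟩
    rw [← map_pow, ← map_pow]
    exact (QuotientGroup.eq_one_iff _).2 ⟨g ^ 2 ^ k, hk, rfl⟩
  have h3 : Group.IsNilpotent ((G ⧸ N₀) ⧸ A) := hP.isNilpotent
  have h4 : Group.IsSolvable ((G ⧸ N₀) ⧸ A) := inferInstance
  exact Group.isSolvable_of_ker_le_range A.subtype (QuotientGroup.mk' A)
    (by rw [QuotientGroup.ker_mk', Subgroup.range_subtype])

/-- **The multiplicities are natural numbers.** -/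
theorem core_real (hc : Central θ) (hv : Virt θ) (hNT : NT θ) {r : ℕ} (hr : θ 1 = r)
    (hp : ∀ p : ℕ, p.Prime → p ≠ 2 → p ∣ Nat.card G → r < 2 * p) (χ : G → ℂ) (hχ : χ ∈ Irr G) :
    ∃ k : ℕ, pr θ χ = k := by
  obtain ⟨N₀, hN₀, -, hmem, hab, -⟩ := exists_kernel hc hv hNT hr hp
  exact pos_of_free hc.hb hv hr N₀ (fun n hn => ((hmem n).1 hn).2)
    (solvable_ab_two N₀ (oddGen G) hab pow_mem_oddGen)
    (free_ab_two N₀ (oddGen G) hab pow_mem_oddGen False r) χ hχ

end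

end Pool.Agent.H701.CP
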