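import Mathlib
import Pool.Graph.R_pool_sql_team_seeded_3997aac3.Q92.AR.ZFe
import Pool.Graph.R_pool_sql_team_seeded_3997aac3.Q84.AR.Hecke
import Pool.Graph.R_pool_sql_team_seeded_3997aac3.Q92.AR.LP
import Pool.Graph.R_seed8.Y772.FE.Gam

/-!
# The order of a Dedekind zeta function at the central point is even
-/

set_option autoImplicit false
set_option linter.unusedSectionVars false

open NumberField Complex Filter Topology Set
open scoped ComplexConjugate

namespace Pool.Agent.H701.CP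

open Pool.Agent.Q246.Unr Pool.Agent.Q92.AR
open Pool.Agent.Y773 (LI GG)
open Pool.Agent.Y773.G (sg ex)

variable (F : Type) [Field F] [NumberField F]

open Classical in
/-- the trivial character of the ideals -/
noncomputable def tr0 : Ideal (𝓞 F) →*₀ ℂ where
  toFun 𝔞 := if 𝔞 = ⊥ then 0 else 1
  map_zero' := if_pos rfl
  map_one' := by
    rw [if_neg]
    rw [Ideal.one_eq_top]
    exact top_ne_bot
  map_mul' 𝔞 𝔟 := by
    by_cases h1 : 𝔞 = ⊥
    · rw [h1, Ideal.bot_mul, if_pos rfl, zero_mul]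
    by_cases h2 : 𝔟 = ⊥
    · rw [h2, Ideal.mul_bot, if_pos rfl, mul_zero]
    rw [if_neg h1, if_neg h2, if_neg (by rw [Ideal.mul_eq_bot]; tauto), mul_one]

lemma tr0_bot : tr0 F ⊥ = 0 := map_zero (tr0 F)

lemma tr0_of_ne {𝔞 : Ideal (𝓞 F)} (h : 𝔞 ≠ ⊥) : tr0 F 𝔞 = 1 := if_neg h

lemma tr0_UC : UC (fun _ : InfinitePlace F => 0) (tr0 F) where
  he _ := Nat.zero_le _
  cpx _ _ := rfl
  ne 𝔞 h := by rw [tr0_of_ne F h]; exact one_ne_zero
  sig x hx := by
    rw [tr0_of_ne F (by rwa [Ne, Ideal.span_singleton_eq_bot])]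
    unfold sg
    simp

lemma tr0_triv : Triv (tr0 F) := fun _ h => tr0_of_ne F h

lemma LI_tr0 {s : ℂ} (hs : 1 < s.re) : LI (tr0 F) s = NumberField.dedekindZeta F s := by
  classical
  rw [← (gI_hasSum (F := F) hs).tsum_eq]
  unfold LI
  refine tsum_congr fun 𝔞 => ?_
  unfold gI
  by_cases h : 𝔞 = ⊥
  · rw [if_pos h, h, tr0_bot, zero_mul]
  · rw [if_neg h, tr0_of_ne F h, one_mul]

lemma conj_zeta {s : ℂ} (hs : 1 < s.re) :
    conj (NumberField.dedekindZeta F (conj s)) = NumberField.dedekindZeta F s := by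
  classical
  rw [← (gI_hasSum (F := F) hs).tsum_eq,
    ← (gI_hasSum (F := F) (s := conj s) (by rwa [Complex.conj_re])).tsum_eq, Complex.conj_tsum]
  refine tsum_congr fun 𝔞 => ?_
  unfold gI
  split_ifs with h
  · exact map_zero _
  · have h1 : -(conj s) = conj (-s) := (map_neg _ _).symm
    rw [h1, Complex.cpow_conj _ _ (by
      rw [Complex.natCast_arg]
      exact Real.pi_ne_zero.symm), Complex.conj_conj, Complex.conj_natCast]

/-- an entire function with `U s = U (1 - s)` and its relation with the zeta function -/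
lemma exists_entire : ∃ U Gi : ℂ → ℂ, Differentiable ℂ U ∧ Differentiable ℂ Gi ∧
    (∀ s, U (1 - s) = U s) ∧ Gi (1 / 2) ≠ 0 ∧
    ∀ s : ℂ, 1 < s.re → NumberField.dedekindZeta F s = U s * Gi s / (s * (s - 1)) := by
  classical
  obtain ⟨U, w, hU, -, hw, hval, hfe⟩ := fe_one (tr0_UC F)
  have hw1 : w = 1 := hw (tr0_triv F) (fun _ => rfl)
  subst hw1
  simp only [if_pos (tr0_triv F), pow_one, one_mul] at hval hfe
  have hD : (0 : ℝ) < (Ideal.absNorm (differentIdeal ℤ (𝓞 F)) : ℝ) := by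
    have : Ideal.absNorm (differentIdeal ℤ (𝓞 F)) ≠ 0 := by
      rw [Ne, Ideal.absNorm_eq_zero_iff]
      exact differentIdeal_ne_bot
    exact_mod_cast Nat.pos_of_ne_zero this
  obtain ⟨Gi, hGi, hGG⟩ := Pool.Agent.Q84.AR.GG_inv hD (ex (fun _ : InfinitePlace F => 0))
  refine ⟨U, Gi, hU, hGi, ?_, ?_, ?_⟩
  · -- reality
    have hreal : (fun s => conj (U (conj s))) = U := by
      refine Pool.Agent.Y773.entire_eq ?_ hU ?_
      · intro s
        have h4 := (hU (conj s)).hasDerivAt.conj_conj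
        rw [Complex.conj_conj] at h4
        exact h4.differentiableAt
      · intro s hs
        have hs' : 1 < (conj s).re := by rwa [Complex.conj_re]
        change conj (U (conj s)) = U s
        rw [hval _ hs', hval _ hs, LI_tr0 F hs, LI_tr0 F hs', map_mul, map_mul, map_mul,
          Pool.Agent.Y772.FE.conj_GG hD, conj_zeta F hs, map_sub, map_one, Complex.conj_conj]
    intro s
    have h1 := hfe (1 - s)
    have h2 : 1 - conj (1 - s) = conj s := by
      rw [map_sub, map_one]; ring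
    rw [h1, h2]
    exact congrFun hreal s
  · have h1 := hGG (1 / 2) (by norm_num)
    intro h2
    rw [h2, mul_zero] at h1
    exact zero_ne_one h1
  · intro s hs
    have h1 := hval s hs
    have h2 := hGG s (by linarith)
    rw [LI_tr0 F hs] at h1
    have hs0 : s ≠ 0 := by
      rintro rfl
      rw [zero_re] at hs
      linarith
    have hs1 : s - 1 ≠ 0 := by
      intro h
      rw [sub_eq_zero.1 h, one_re] at hs
      linarith
    rw [eq_div_iff (mul_ne_zero hs0 hs1), h1]
    linear_combination (-(NumberField.dedekindZeta F s * (s * (s - 1)))) * h2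

/-- the order of a symmetric analytic function at `1/2` is even -/
lemma even_order {U : ℂ → ℂ} (hU : AnalyticAt ℂ U (1 / 2)) (hs : ∀ s, U (1 - s) = U s)
    (ht : meromorphicOrderAt U (1 / 2) ≠ ⊤) :
    ∃ n : ℕ, meromorphicOrderAt U (1 / 2) = ((2 * n : ℕ) : ℤ) := by
  have h0 : analyticOrderAt U (1 / 2) ≠ ⊤ := by
    intro h
    apply ht
    rw [hU.meromorphicOrderAt_eq, h]
    rfl
  obtain ⟨n, hn⟩ := ENat.ne_top_iff_exists.1 h0
  have h1 : meromorphicOrderAt U (1 / 2) = ((n : ℕ) : ℤ) := by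
    rw [hU.meromorphicOrderAt_eq, ← hn]
    rfl
  obtain ⟨g, hg, hg0, hUg⟩ := (hU.analyticOrderAt_eq_natCast).1 hn.symm
  -- reflect
  have hcont : Tendsto (fun s : ℂ => 1 - s) (𝓝 (1 / 2)) (𝓝 (1 / 2)) := by
    have h2 : Continuous (fun s : ℂ => 1 - s) := by fun_prop
    have h3 := h2.tendsto (1 / 2)
    have h4 : (1 : ℂ) - 1 / 2 = 1 / 2 := by norm_num
    rwa [h4] at h3
  have h2 : ∀ᶠ z in 𝓝[≠] (1 / 2 : ℂ), g z = (-1) ^ n * g (1 - z) := by
    filter_upwards [mem_nhdsWithin_of_mem_nhds hUg,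
      mem_nhdsWithin_of_mem_nhds (hcont.eventually hUg), self_mem_nhdsWithin] with z hz1 hz2 hz3
    have h3 := hs z
    rw [hz1, hz2, smul_eq_mul, smul_eq_mul] at h3
    have h4 : (1 - z - 1 / 2 : ℂ) = (-1) * (z - 1 / 2) := by ring
    rw [h4, mul_pow] at h3
    have h5 : (z - 1 / 2) ^ n ≠ 0 := pow_ne_zero _ (sub_ne_zero.2 hz3)
    apply mul_left_cancel₀ h5
    rw [← h3]
    ring
  have h3 : Tendsto (fun z => (-1) ^ n * g (1 - z)) (𝓝[≠] (1 / 2 : ℂ))
      (𝓝 ((-1) ^ n * g (1 / 2))) :=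
    ((hg.continuousAt.tendsto.comp hcont).const_mul _).mono_left nhdsWithin_le_nhds
  have h4 : Tendsto g (𝓝[≠] (1 / 2 : ℂ)) (𝓝 (g (1 / 2))) :=
    hg.continuousAt.tendsto.mono_left nhdsWithin_le_nhds
  have h5 : g (1 / 2) = (-1) ^ n * g (1 / 2) :=
    tendsto_nhds_unique_of_eventuallyEq h4 h3 h2
  have h6 : Even n := by
    by_contra hodd
    rw [Nat.not_even_iff_odd] at hodd
    rw [hodd.neg_one_pow] at h5
    apply hg0
    linear_combination h5 / 2
  obtain ⟨m, hm⟩ := h6
  refine ⟨m, ?_⟩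
  rw [h1, hm, two_mul]

/-- **The order of the zeta function of a number field at `1/2` is even.** -/
theorem zeta_even : ∃ n : ℕ, meromorphicOrderAt (cont (NumberField.dedekindZeta F)) (1 / 2) =
    ((2 * n : ℕ) : ℤ) := by
  obtain ⟨U, Gi, hU, hGi, hs, hG0, hz⟩ := exists_entire F
  have hd : Differentiable ℂ fun s : ℂ => s * (s - 1) := by fun_prop
  have hf : Continues (fun s => U s * Gi s / (s * (s - 1))) (NumberField.dedekindZeta F) :=
    ⟨fun s _ => ((hU.analyticAt s).meromorphicAt.fun_mul (hGi.analyticAt s).meromorphicAt).div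
      (hd.analyticAt s).meromorphicAt, fun s h => (hz s h).symm⟩
  have h1 := (cont_spec ⟨_, hf⟩).order_eq hf (fun _ _ => rfl) (1 / 2)
  have hne : ∀ s : ℂ, 1 < s.re → NumberField.dedekindZeta F s ≠ 0 := by
    intro s h
    rw [zeta_eq_LP h]
    exact LP_ne_zero _ _ _
  have ht := hf.order_ne_top hne (1 / 2)
  -- the factor without zero or pole
  have hq : AnalyticAt ℂ (fun s => Gi s / (s * (s - 1))) (1 / 2) := by
    refine (hGi.analyticAt _).div (hd.analyticAt _) ?_
    norm_num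
  have hq0 : (fun s => Gi s / (s * (s - 1))) (1 / 2) ≠ 0 := by
    simp only
    exact div_ne_zero hG0 (by norm_num)
  have he : (fun s => U s * Gi s / (s * (s - 1))) = U * (fun s => Gi s / (s * (s - 1))) := by
    funext s
    simp only [Pi.mul_apply]
    rw [mul_div_assoc]
  have h2 : meromorphicOrderAt (fun s => Gi s / (s * (s - 1))) (1 / 2) = 0 := by
    rw [hq.meromorphicOrderAt_eq, hq.analyticOrderAt_eq_zero.2 hq0]
    rfl
  rw [he, meromorphicOrderAt_mul (hU.analyticAt _).meromorphicAt hq.meromorphicAt, h2,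
    add_zero] at h1 ht
  rw [h1]
  exact even_order (hU.analyticAt _) hs ht

end Pool.Agent.H701.CP
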