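import Mathlib
import Pool.Agent.H701.CP.Asm
import Pool.Agent.H701.CP.Zet
import Pool.Graph.R_pool_sql_team_seeded_3997aac3.Q92.AR.Use
import Pool.Graph.R_pool_sql_team_seeded_3997aac3.Q92.AR.All

/-!
# The central point: number fields
-/

set_option autoImplicit false
set_option linter.unusedSectionVars false

namespace Pool.Agent.H701.CP

open Subgroup Pool.Agent.H302R2 Pool.Agent.H541R3.ART Pool.Agent.W446.AS Pool.Agent.TH820
  Pool.Agent.Q7.DB Pool.Agent.Q92.AR ComplexConjugate

section
variable {G : Type} [Group G] [Finite G] {θ : G → ℂ}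

/-- the sum over the image of a subgroup of a subgroup -/
lemma sum_map {H : Subgroup G} (S : Subgroup H) [Fintype S] (f : G → ℂ) :
    ∑ᶠ x : (S.map H.subtype : Subgroup G), f x = ∑ x : S, f ((x : H) : G) := by
  classical
  have : Fintype (S.map H.subtype : Subgroup G) := Fintype.ofFinite _
  rw [finsum_eq_sum_of_fintype]
  exact (Equiv.sum_comp (S.equivMapOfInjective H.subtype H.subtype_injective).toEquiv
    (fun x : (S.map H.subtype : Subgroup G) => f x)).symm

lemma card_map {H : Subgroup G} (S : Subgroup H) :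
    Nat.card (S.map H.subtype : Subgroup G) = Nat.card S :=
  (Nat.card_congr (S.equivMapOfInjective H.subtype H.subtype_injective).toEquiv).symm

/-- sums over the kernel of a quadratic character -/
lemma sum_quad {H : Type} [Group H] [Finite H] [Fintype H] (χ : H →* ℂˣ) [Fintype χ.ker]
    (h2 : ∀ h, χ h ^ 2 = 1) (f : H → ℂ) :
    ∑ h : H, f h * (((χ h)⁻¹ : ℂˣ) : ℂ) = 2 * ∑ k : χ.ker, f k - ∑ h : H, f h := by
  classical
  rw [eq_sub_iff_add_eq, ← Finset.sum_add_distrib]
  have h3 : ∀ h : H, f h * (((χ h)⁻¹ : ℂˣ) : ℂ) + f h = if χ h = 1 then 2 * f h else 0 := by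
    intro h
    rcases unit_sq (h2 h) with h4 | h4
    · rw [h4, if_pos rfl]
      simp
      ring
    · rw [h4, if_neg]
      · simp
      · intro h5
        have := congrArg Units.val h5
        simp only [Units.val_neg, Units.val_one] at this
        norm_num at this
  rw [Finset.sum_congr rfl (fun h _ => h3 h), ← Finset.sum_filter, Finset.mul_sum]
  rw [Finset.sum_subtype (Finset.univ.filter (fun h => χ h = 1)) (p := fun h => h ∈ χ.ker)
    (by intro x; simp [MonoidHom.mem_ker])]

/-- **Even orders of the zeta functions give a central Heilbronn function.** -/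
theorem central_of_even (hb : IsHeilbronn θ) (hreal : ∀ g, θ g⁻¹ = θ g)
    (hev : ∀ H : Subgroup G, ∃ n : ℕ, ∑ᶠ h : H, θ h = (2 * n : ℂ) * (Nat.card H : ℂ)) :
    Central θ where
  hb := hb
  real := hreal
  even H χ h2 := by
    classical
    have : Fintype H := Fintype.ofFinite _
    have : Fintype χ.ker := Fintype.ofFinite _
    obtain ⟨a, ha⟩ := hev H
    by_cases h1 : ∀ h, χ h = 1
    · refine ⟨a, ?_⟩
      rw [← ha]
      exact finsum_congr fun h => by rw [h1, inv_one, Units.val_one, mul_one]
    push Not at h1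
    obtain ⟨h₀, hh₀⟩ := h1
    obtain ⟨b, hb'⟩ := hev (χ.ker.map H.subtype)
    rw [sum_map, card_map] at hb'
    obtain ⟨n, hn⟩ := hb.mult H χ
    rw [finsum_eq_sum_of_fintype] at ha hn
    have h3 := sum_quad χ h2 (fun h => θ h)
    have h4 := sum_quad χ h2 (fun _ => 1)
    have h5 : ∑ h : H, (1 : ℂ) * (((χ h)⁻¹ : ℂˣ) : ℂ) = 0 := by
      have h6 := finsum_char_eq_zero χ⁻¹ (by
        intro h
        apply hh₀
        have := DFunLike.congr_fun h h₀
        rw [MonoidHom.inv_apply, MonoidHom.one_apply, inv_eq_one] at this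
        exact this)
      rw [finsum_eq_sum_of_fintype] at h6
      rw [← h6]
      exact Finset.sum_congr rfl fun h _ => by rw [one_mul, MonoidHom.inv_apply]
    rw [h5] at h4
    simp only [Finset.sum_const, Finset.card_univ, nsmul_eq_mul, mul_one,
      ← Nat.card_eq_fintype_card] at h4
    rw [hn, hb', ha] at h3
    have hH : (Nat.card H : ℂ) ≠ 0 := by exact_mod_cast Nat.card_pos.ne'
    have h6 : (n : ℂ) = 2 * b - 2 * a := by
      apply mul_right_cancel₀ hH
      linear_combination h3 - (2 * (b : ℂ)) * h4
    have h7 : (n : ℤ) = 2 * b - 2 * a := by exact_mod_cast h6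
    have h8 : n = 2 * (b - a) := by omega
    refine ⟨b - a, ?_⟩
    rw [finsum_eq_sum_of_fintype, hn, h8]
    push_cast
    rfl

lemma Twisted.z_sq {X : Type} [Group X] {E : Subgroup X} {z t : X} (h : Twisted X E z t) :
    z * z = 1 := by
  rcases h.sq z h.mem with h1 | h1
  · rw [← pow_two, h1]
  · exfalso
    rw [pow_two] at h1
    exact h.ne (mul_eq_left.1 h1)

lemma Twisted.mem_zpowers {X : Type} [Group X] {E : Subgroup X} {z t : X} (h : Twisted X E z t)
    (x : X) : x ∈ zpowers z ↔ x = 1 ∨ x = z := by
  constructor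
  · intro hx
    obtain ⟨k, rfl⟩ := mem_zpowers_iff.1 hx
    have h2 : z ^ (2 : ℤ) = 1 := by
      rw [zpow_ofNat, pow_two, h.z_sq]
    rcases Int.even_or_odd' k with ⟨j, rfl | rfl⟩
    · left
      rw [zpow_mul, h2, one_zpow]
    · right
      rw [zpow_add, zpow_mul, h2, one_zpow, one_mul, zpow_one]
  · rintro (rfl | rfl)
    · exact one_mem _
    · exact Subgroup.mem_zpowers _

/-- no twisted section, from the orders of the zeta functions -/
theorem nt_of_orders (k : Subgroup G → ℕ)
    (hk : ∀ H : Subgroup G, ∑ᶠ h : H, θ h = (k H : ℂ) * (Nat.card H : ℂ))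
    (hT : ∀ (H : Subgroup G) (X : Type) [Group X] (f : H →* X) (E : Subgroup X) (z t : X),
      Function.Surjective f → Twisted X E z t →
      k (f.ker.map H.subtype) = k (((zpowers z).comap f).map H.subtype)) : NT θ := by
  classical
  intro H X _ f E z t hf hX
  have : Fintype H := Fintype.ofFinite _
  have : Fintype f.ker := Fintype.ofFinite _
  have : Fintype ((zpowers z).comap f) := Fintype.ofFinite _
  have h1 := hk (f.ker.map H.subtype)
  have h2 := hk (((zpowers z).comap f).map H.subtype)
  rw [sum_map, card_map] at h1 h2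
  have h3 := hT H X f E z t hf hX
  rw [finsum_eq_sum_of_fintype]
  -- the quadratic character
  have hmem := hX.mem_zpowers
  have hne := hX.ne
  have hzz := hX.z_sq
  have hU : ∀ h : H, h ∈ (zpowers z).comap f ↔ f h = 1 ∨ f h = z := fun h => hmem (f h)
  have key : ∀ g : H → ℂ, ∑ h : H, g h * cz z (f h) =
      2 * ∑ x : f.ker, g x - ∑ x : (zpowers z).comap f, g x := by
    intro g
    rw [← Finset.sum_subtype (Finset.univ.filter (fun h => f h = 1)) (p := fun h => h ∈ f.ker)
      (by intro x; simp [MonoidHom.mem_ker]),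
      ← Finset.sum_subtype (Finset.univ.filter (fun h => f h = 1 ∨ f h = z))
        (p := fun h => h ∈ (zpowers z).comap f) (by intro x; rw [hU]; simp),
      Finset.sum_filter, Finset.sum_filter, Finset.mul_sum, ← Finset.sum_sub_distrib]
    refine Finset.sum_congr rfl fun h _ => ?_
    unfold cz
    by_cases e1 : f h = 1
    · simp only [e1, if_true, true_or]; ring
    · by_cases e2 : f h = z
      · simp only [e2, if_neg hne, if_true, or_true]; ring
      · simp only [e1, e2, if_false, or_self]; ring
  have hcard : (Nat.card ((zpowers z).comap f) : ℂ) = 2 * (Nat.card f.ker : ℂ) := by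
    obtain ⟨h₀, hh₀⟩ := hf z
    -- the sum of `cz` is zero
    have h4 := key (fun _ => 1)
    have h5 : ∑ h : H, (1 : ℂ) * cz z (f h) = 0 := by
      have h6 : ∑ h : H, (1 : ℂ) * cz z (f h) = ∑ h : H, (1 : ℂ) * cz z (f (h₀ * h)) :=
        (Equiv.sum_comp (Equiv.mulLeft h₀) (fun h => (1 : ℂ) * cz z (f h))).symm
      have h7 : ∀ h : H, cz z (f (h₀ * h)) = - cz z (f h) := by
        intro h
        rw [map_mul, hh₀]
        unfold cz
        by_cases e1 : f h = 1
        · rw [e1, mul_one, if_neg hne, if_pos rfl, if_pos rfl]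
        · by_cases e2 : f h = z
          · rw [e2, hzz, if_pos rfl, if_neg hne, if_pos rfl, neg_neg]
          · rw [if_neg e1, if_neg e2, if_neg, if_neg, neg_zero]
            · intro e3
              exact e1 (mul_eq_left.1 e3)
            · intro e3
              apply e2
              rw [← hzz] at e3
              exact mul_left_cancel e3
      have h8 : ∑ h : H, (1 : ℂ) * cz z (f (h₀ * h)) = - ∑ h : H, (1 : ℂ) * cz z (f h) := by
        rw [← Finset.sum_neg_distrib]
        exact Finset.sum_congr rfl fun h _ => by rw [h7]; ring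
      rw [h8] at h6
      linear_combination h6 / 2
    rw [h5] at h4
    simp only [Finset.sum_const, Finset.card_univ, nsmul_eq_mul, mul_one,
      ← Nat.card_eq_fintype_card] at h4
    linear_combination h4
  rw [key (fun h => θ h), h1, h2, h3, hcard]
  ring

end

section
variable (K M : Type) [Field K] [NumberField K] [Field M] [NumberField M] [Algebra K M]

/-- The order at `1/2` of the Dedekind zeta function of the field fixed by the subgroup `H`. -/
noncomputable def zord (H : Subgroup (M ≃ₐ[K] M)) : WithTop ℤ :=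
  meromorphicOrderAt (cont (NumberField.dedekindZeta (IntermediateField.fixedField H))) (1 / 2)

/-- **Twisted zeros**: a surjection `f` of a subgroup `H` of the Galois group onto a group `X` with
`Twisted X E z t` such that `ζ_{F'} / ζ_B` vanishes at `1/2`, where `B ⊆ F'` are the fields fixed by
`f ⁻¹ {1, z}` and by the kernel of `f` (so `F' / B` is quadratic). -/
def TwistZero : Prop :=
  ∃ (H : Subgroup (M ≃ₐ[K] M)) (X : Type) (_ : Group X) (f : H →* X) (E : Subgroup X) (z t : X),
    Function.Surjective f ∧ Twisted X E z t ∧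
    zord K M (f.ker.map H.subtype) ≠ zord K M (((zpowers z).comap f).map H.subtype)

end

section
variable {K M : Type} [Field K] [NumberField K] [Field M] [NumberField M] [Algebra K M]
  [IsGalois K M]

/-- the order of the zeta function of the field fixed by `H` -/
theorem exists_zeta_order (H : Subgroup (M ≃ₐ[K] M)) : ∃ n : ℕ,
    meromorphicOrderAt (cont (NumberField.dedekindZeta (IntermediateField.fixedField H))) (1 / 2) =
      ((2 * n : ℕ) : ℤ) :=
  zeta_even (IntermediateField.fixedField H)

/-- **The Heilbronn function of the central point.** -/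
theorem central_theta (hC : Continued (K := K) M (1 / 2)) (h0 : 0 < (1 / 2 : ℂ).re)
    (hT : ¬ TwistZero K M) :
    Central (theta (ArtinData.ofExtension hC).ord : (M ≃ₐ[K] M) → ℂ) ∧
      NT (theta (ArtinData.ofExtension hC).ord : (M ≃ₐ[K] M) → ℂ) := by
  classical
  set A := ArtinData.ofExtension hC with hA
  have hhalf : conj (1 / 2 : ℂ) = 1 / 2 := by
    rw [map_div₀, map_one, map_ofNat]
  have hord : ∀ H : Subgroup (M ≃ₐ[K] M), ∃ k : ℕ,
      ∑ᶠ x : H, (theta A.ord : (M ≃ₐ[K] M) → ℂ) x = (k : ℂ) * Nat.card H ∧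
      meromorphicOrderAt (cont (NumberField.dedekindZeta (IntermediateField.fixedField H)))
        (1 / 2) = (k : WithTop ℤ) := by
    intro H
    obtain ⟨k, hk, hk'⟩ := Pool.Agent.Q92.DZ.exists_order A H 1
    refine ⟨k, ?_, ?_⟩
    · rw [← hk]
      exact finsum_congr fun h => by rw [MonoidHom.one_apply, inv_one, Units.val_one, mul_one]
    · rw [← lin_fixed hC h0 H]
      exact hk'
  choose k hk hk' using hord
  have hev : ∀ H : Subgroup (M ≃ₐ[K] M), ∃ n : ℕ, k H = 2 * n := by
    intro H
    obtain ⟨n, hn⟩ := exists_zeta_order H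
    rw [hk' H] at hn
    exact ⟨n, by exact_mod_cast hn⟩
  refine ⟨central_of_even A.isHeilbronn (theta_real hhalf (reflects_ofExtension hC)) ?_,
    nt_of_orders k hk ?_⟩
  · intro H
    obtain ⟨n, hn⟩ := hev H
    refine ⟨n, ?_⟩
    rw [hk H, hn]
    push_cast
    rfl
  · intro H X _ f E z t hf hX
    by_contra hne
    apply hT
    refine ⟨H, X, _, f, E, z, t, hf, hX, ?_⟩
    unfold zord
    rw [hk', hk']
    intro h
    apply hne
    exact_mod_cast h

end

end Pool.Agent.H701.CP
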