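import Mathlib
import Pool.Agent.H701.CP.Num
import Pool.Graph.R_pool_sql_team_seeded_3997aac3.Q92.RT.Ind

/-!
# Degrees of the irreducible characters of groups with an abelian normal subgroup of two-power index
-/

set_option autoImplicit false
set_option linter.unusedSectionVars false

namespace Pool.Agent.H701.CP

open Subgroup Pool.Agent.H302R2 Pool.Agent.H541R3.ART Pool.Agent.W446.AS Pool.Agent.TH820
open Pool.Agent.Q92.RT (class_expand)

/-- the irreducible characters of abelian groups are linear -/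
lemma irr_comm {X : Type} [Group X] [Finite X] (hab : ∀ a b : X, a * b = b * a) {χ : X → ℂ}
    (hχ : χ ∈ Irr X) : χ 1 = 1 := by
  classical
  have : Fintype X := Fintype.ofFinite X
  obtain ⟨ι, _, ψ, n, hdec⟩ := (irr_heilbronn hχ).comm_decomp hab
  by_contra hne
  have h1 : ∀ i, pr (fun g => ((ψ i g : ℂˣ) : ℂ)) χ = 0 := by
    intro i
    apply pr_ne (lin_irr (ψ i)) hχ
    intro h
    apply hne
    rw [← h]
    change ((ψ i 1 : ℂˣ) : ℂ) = 1
    rw [map_one, Units.val_one]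
  have h2 : pr χ χ = ∑ i, (n i : ℂ) * pr (fun g => ((ψ i g : ℂˣ) : ℂ)) χ := by
    have h3 : ∑ g, χ g * χ g⁻¹ = ∑ g, ∑ i, (n i : ℂ) * (((ψ i g : ℂˣ) : ℂ) * χ g⁻¹) := by
      refine Finset.sum_congr rfl fun g _ => ?_
      nth_rewrite 1 [hdec g]
      rw [Finset.sum_mul]
      exact Finset.sum_congr rfl fun i _ => by ring
    rw [pr_eq, h3, Finset.sum_comm, Finset.mul_sum]
    refine Finset.sum_congr rfl fun i _ => ?_
    rw [pr_eq, ← Finset.mul_sum]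
    ring
  rw [pr_self hχ, Finset.sum_eq_zero (fun i _ => by rw [h1, mul_zero])] at h2
  exact one_ne_zero h2

section
variable {X : Type} [Group X] [Finite X]

/-- multiplicities in the restriction to a subgroup -/
lemma exists_res (M : Subgroup X) : ∃ n : (X → ℂ) → (M → ℂ) → ℕ, ∀ χ ∈ Irr X, ∀ ψ ∈ Irr M,
    pr (fun m : M => χ m) ψ = n χ ψ := by
  classical
  have h : ∀ (χ : X → ℂ) (ψ : M → ℂ), ∃ k : ℕ, χ ∈ Irr X → ψ ∈ Irr M →
      pr (fun m : M => χ m) ψ = k := by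
    intro χ ψ
    by_cases h1 : χ ∈ Irr X
    · by_cases h2 : ψ ∈ Irr M
      · obtain ⟨k, hk⟩ := exists_mult_irr h1 M h2
        refine ⟨k, fun _ _ => ?_⟩
        unfold pr
        rw [hk, mul_comm (k : ℂ), ← mul_assoc, inv_mul_cancel₀ card_ne, one_mul]
      · exact ⟨0, fun _ h => absurd h h2⟩
    · exact ⟨0, fun h => absurd h h1⟩
  choose n hn using h
  exact ⟨n, fun χ hχ ψ hψ => hn χ ψ hχ hψ⟩

lemma pr_sum_left {ι : Type*} (s : Finset ι) (c : ι → ℂ) (f : ι → X → ℂ) (χ : X → ℂ) :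
    pr (fun g => ∑ i ∈ s, c i * f i g) χ = ∑ i ∈ s, c i * pr (f i) χ := by
  classical
  have : Fintype X := Fintype.ofFinite X
  rw [pr_eq]
  have h3 : ∑ g, (∑ i ∈ s, c i * f i g) * χ g⁻¹ = ∑ g, ∑ i ∈ s, c i * (f i g * χ g⁻¹) := by
    refine Finset.sum_congr rfl fun g _ => ?_
    rw [Finset.sum_mul]
    exact Finset.sum_congr rfl fun i _ => by ring
  rw [h3, Finset.sum_comm, Finset.mul_sum]
  refine Finset.sum_congr rfl fun i _ => ?_
  rw [pr_eq, ← Finset.mul_sum]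
  ring

/-- **Index two.** -/
lemma deg_index_two (ε : X →* ℂˣ) (hε : ∀ x, ε x ^ 2 = 1) {x₀ : X} (hx₀ : ε x₀ ≠ 1) {χ : X → ℂ}
    (hχ : χ ∈ Irr X) (hd : ∀ ψ ∈ Irr ε.ker, ∃ d : ℕ, ψ 1 = ((2 ^ d : ℕ) : ℂ)) :
    ∃ d : ℕ, χ 1 = ((2 ^ d : ℕ) : ℂ) := by
  classical
  have : Fintype X := Fintype.ofFinite X
  have : Fintype ε.ker := Fintype.ofFinite _
  set M := ε.ker with hM
  have hcX : (Nat.card X : ℂ) ≠ 0 := card_ne
  have hcM : (Nat.card M : ℂ) ≠ 0 := card_ne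
  have hε1 : ε⁻¹ ≠ 1 := by
    intro h
    apply hx₀
    have := DFunLike.congr_fun h x₀
    rw [MonoidHom.inv_apply, MonoidHom.one_apply, inv_eq_one] at this
    exact this
  have hcard : (Nat.card X : ℂ) = 2 * Nat.card M := by
    have h4 := sum_quad ε hε (fun _ => 1)
    have h5 : ∑ h : X, (1 : ℂ) * (((ε h)⁻¹ : ℂˣ) : ℂ) = 0 := by
      have h6 := finsum_char_eq_zero ε⁻¹ hε1
      rw [finsum_eq_sum_of_fintype] at h6
      rw [← h6]
      exact Finset.sum_congr rfl fun h _ => by rw [one_mul, MonoidHom.inv_apply]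
    rw [h5] at h4
    simp only [Finset.sum_const, Finset.card_univ, nsmul_eq_mul, mul_one,
      ← Nat.card_eq_fintype_card] at h4
    linear_combination h4
  have hconjε : ∀ a b : X, ε (a * b * a⁻¹) = ε b := by
    intro a b
    rw [map_mul, map_mul, map_inv, mul_comm (ε a), mul_inv_cancel_right]
  obtain ⟨n, hn⟩ := exists_res M
  -- expansion of the restriction
  have hexp : ∀ ξ ∈ Irr X, ∀ m : M, ξ m = ∑ ψ ∈ irrF M, (n ξ ψ : ℂ) * ψ m := by
    intro ξ hξ m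
    have hv : Virt (fun m : M => ξ m) :=
      Virt.comp (θ := ξ) (AddSubgroup.subset_closure hξ) M.subtype
    have h1 := hv.expand m
    rw [h1]
    refine Finset.sum_congr rfl fun ψ hψ => ?_
    rw [hn ξ hξ ψ (mem_irrF.1 hψ)]
  -- the norm
  have hnorm : ∑ ψ ∈ irrF M, n χ ψ ^ 2 = 1 ∨ ∑ ψ ∈ irrF M, n χ ψ ^ 2 = 2 := by
    have h1 : pr (fun m : M => χ m) (fun m : M => χ m) = ((∑ ψ ∈ irrF M, n χ ψ ^ 2 : ℕ) : ℂ) := by
      have h2 : (fun m : M => χ m) = fun m : M => ∑ ψ ∈ irrF M, (n χ ψ : ℂ) * ψ m :=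
        funext fun m => hexp χ hχ m
      rw [show pr (fun m : M => χ m) (fun m : M => χ m) =
        pr (fun m : M => ∑ ψ ∈ irrF M, (n χ ψ : ℂ) * ψ m) (fun m : M => χ m) by rw [← h2],
        pr_sum_left (irrF M) (fun ψ => (n χ ψ : ℂ)) (fun ψ => ψ)]
      push_cast
      refine Finset.sum_congr rfl fun ψ hψ => ?_
      rw [pr_symm, hn χ hχ ψ (mem_irrF.1 hψ)]
      ring
    have h2 : pr (fun m : M => χ m) (fun m : M => χ m) =
        1 + pr (fun g => χ g * (((ε g)⁻¹ : ℂˣ) : ℂ)) χ := by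
      have h3 := sum_quad ε hε (fun g => χ g * χ g⁻¹)
      have h4 : ∑ g : X, χ g * χ g⁻¹ = Nat.card X := pair_self hχ
      have h5 : ∑ g : X, χ g * χ g⁻¹ * (((ε g)⁻¹ : ℂˣ) : ℂ) =
          pr (fun g => χ g * (((ε g)⁻¹ : ℂˣ) : ℂ)) χ * Nat.card X := by
        rw [← sum_eq_pr]
        exact Finset.sum_congr rfl fun g _ => by ring
      have h6 : ∑ k : M, χ k * χ (k : X)⁻¹ =
          pr (fun m : M => χ m) (fun m : M => χ m) * Nat.card M := by
        rw [← sum_eq_pr]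
        rfl
      rw [h5, h4] at h3
      have h7 : ∑ k : ε.ker, (fun g => χ g * χ g⁻¹) (k : X) = ∑ k : M, χ k * χ (k : X)⁻¹ := rfl
      rw [h7, h6, hcard] at h3
      apply mul_right_cancel₀ hcM
      linear_combination (-1 / 2 : ℂ) * h3
    by_cases h3 : (fun g => χ g * (((ε g)⁻¹ : ℂˣ) : ℂ)) = χ
    · right
      rw [h3, pr_self hχ, h1] at h2
      have h4 : ((∑ ψ ∈ irrF M, n χ ψ ^ 2 : ℕ) : ℂ) = ((2 : ℕ) : ℂ) := by rw [h2]; norm_num
      exact_mod_cast h4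
    · left
      rw [pr_ne (twist_irr ε hχ) hχ h3, h1, add_zero] at h2
      exact_mod_cast h2
  -- a constituent
  obtain ⟨ψ₁, hψ₁, hn1⟩ : ∃ ψ ∈ Irr M, n χ ψ ≠ 0 := by
    by_contra hcon
    push Not at hcon
    have : ∑ ψ ∈ irrF M, n χ ψ ^ 2 = 0 :=
      Finset.sum_eq_zero fun ψ hψ => by rw [hcon ψ (mem_irrF.1 hψ)]; rfl
    omega
  let ψ₁' : M → ℂ := fun m => ψ₁ (MulAut.conjNormal x₀ m)
  have hψ₁' : ψ₁' ∈ Irr M :=
    infl_irr (π := (MulAut.conjNormal x₀ : M ≃* M).toMonoidHom) (MulEquiv.surjective _) hψ₁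
  have hone : ψ₁' 1 = ψ₁ 1 := by
    change ψ₁ (MulAut.conjNormal x₀ 1) = ψ₁ 1
    rw [map_one]
  -- the other constituents
  have hclaim : ∀ ψ₂ ∈ Irr M, ψ₁ ≠ ψ₂ → ψ₁' ≠ ψ₂ → n χ ψ₂ = 0 := by
    intro ψ₂ hψ₂ hne hne'
    let g : X → ℂ := fun x => if h : x ∈ M then ψ₁ ⟨x, h⟩ + ψ₁' ⟨x, h⟩ else 0
    have hg : ∀ (x : X) (h : x ∈ M), g x = ψ₁ ⟨x, h⟩ + ψ₁' ⟨x, h⟩ := fun x h => dif_pos h
    have hg0 : ∀ x : X, x ∉ M → g x = 0 := fun x h => dif_neg h
    -- invariance of the class function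
    have hin : ∀ (y : X) (hy : y ∈ M) (m : M), ψ₁ (MulAut.conjNormal y m) = ψ₁ m := by
      intro y hy m
      have h1 : MulAut.conjNormal y m = ⟨y, hy⟩ * m * ⟨y, hy⟩⁻¹ := by
        apply Subtype.ext
        rw [MulAut.conjNormal_apply]
        rfl
      rw [h1, Irr.conj hψ₁]
    have hinv : ∀ (x : X) (m : M),
        ψ₁ (MulAut.conjNormal x m) + ψ₁' (MulAut.conjNormal x m) = ψ₁ m + ψ₁' m := by
      intro x m
      have e2 : ∀ (y : X) (m : M), ψ₁' (MulAut.conjNormal y m) =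
          ψ₁ (MulAut.conjNormal (x₀ * y) m) := by
        intro y m
        change ψ₁ (MulAut.conjNormal x₀ (MulAut.conjNormal y m)) = _
        rw [map_mul, MulAut.mul_apply]
      by_cases hx : x ∈ M
      · have h1 : x₀ * x * x₀⁻¹ ∈ M := by
          rw [hM, MonoidHom.mem_ker, hconjε]
          exact hx
        have h2 : x₀ * x = (x₀ * x * x₀⁻¹) * x₀ := by group
        rw [hin x hx, e2, h2, map_mul, MulAut.mul_apply, hin _ h1]
      · have hεx : ε x = -1 := (unit_sq (hε x)).resolve_left hx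
        have hεx₀ : ε x₀ = -1 := (unit_sq (hε x₀)).resolve_left hx₀
        have h1 : x₀ * x ∈ M := by
          rw [hM, MonoidHom.mem_ker, map_mul, hεx, hεx₀]
          simp
        have h2 : x * x₀⁻¹ ∈ M := by
          rw [hM, MonoidHom.mem_ker, map_mul, map_inv, hεx, hεx₀]
          simp
        have h3 : x = (x * x₀⁻¹) * x₀ := by group
        rw [e2, hin _ h1]
        have h4 : ψ₁ (MulAut.conjNormal x m) = ψ₁' m := by
          rw [h3, map_mul, MulAut.mul_apply, hin _ h2]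
        rw [h4, add_comm]
    have hclass : ∀ a x : X, g (x * a * x⁻¹) = g a := by
      intro a x
      by_cases ha : a ∈ M
      · have h1 : x * a * x⁻¹ ∈ M := by
          rw [hM, MonoidHom.mem_ker, hconjε]
          exact ha
        rw [hg _ h1, hg _ ha]
        have h2 : (⟨x * a * x⁻¹, h1⟩ : M) = MulAut.conjNormal x ⟨a, ha⟩ := by
          apply Subtype.ext
          rw [MulAut.conjNormal_apply]
        rw [h2]
        exact hinv x ⟨a, ha⟩
      · have h1 : x * a * x⁻¹ ∉ M := by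
          rw [hM, MonoidHom.mem_ker, hconjε]
          exact ha
        rw [hg0 _ h1, hg0 _ ha]
    -- multiplicities of the extension by zero
    have hgm : ∀ ξ ∈ Irr X, ∑ a, g a * ξ a⁻¹ =
        (((n ξ ψ₁ + n ξ ψ₁' : ℕ) : ℂ) / 2) * Nat.card X := by
      intro ξ hξ
      have h1 : ∑ a, g a * ξ a⁻¹ = ∑ m : M, (ψ₁ m + ψ₁' m) * ξ (m : X)⁻¹ := by
        have h2 : ∑ m : M, (ψ₁ m + ψ₁' m) * ξ (m : X)⁻¹ = ∑ m : M, g m * ξ (m : X)⁻¹ :=
          Finset.sum_congr rfl fun m _ => by rw [hg _ m.2]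
        rw [h2, ← Finset.sum_subtype (Finset.univ.filter (fun a => a ∈ M)) (p := fun a => a ∈ M)
          (by intro x; simp) (f := fun a : X => g a * ξ a⁻¹)]
        symm
        apply Finset.sum_subset (Finset.subset_univ _)
        intro a _ ha
        have ha' : a ∉ M := by simpa using ha
        rw [hg0 _ ha', zero_mul]
      have h3 : ∑ m : M, (ψ₁ m + ψ₁' m) * ξ (m : X)⁻¹ =
          ((n ξ ψ₁ : ℂ) + (n ξ ψ₁' : ℂ)) * Nat.card M := by
        have h4 := sum_eq_pr ψ₁ (fun m : M => ξ m)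
        have h5 := sum_eq_pr ψ₁' (fun m : M => ξ m)
        rw [pr_symm, hn ξ hξ _ hψ₁] at h4
        rw [pr_symm, hn ξ hξ _ hψ₁'] at h5
        rw [add_mul, ← h4, ← h5, ← Finset.sum_add_distrib]
        exact Finset.sum_congr rfl fun m _ => by rw [add_mul]; rfl
      rw [h1, h3, hcard]
      push_cast
      ring
    have hexpg := class_expand hclass (m := fun ξ => (((n ξ ψ₁ + n ξ ψ₁' : ℕ) : ℂ) / 2)) hgm
    -- the pairing with `ψ₂`
    have h1 : pr (fun m : M => g m) ψ₂ = 0 := by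
      have h2 : (fun m : M => g m) = ψ₁ + ψ₁' := funext fun m => hg _ m.2
      rw [h2, pr_add, pr_ne hψ₁ hψ₂ hne, pr_ne hψ₁' hψ₂ hne', add_zero]
    have h2 : pr (fun m : M => g m) ψ₂ =
        ∑ ξ ∈ irrF X, (((n ξ ψ₁ + n ξ ψ₁' : ℕ) : ℂ) / 2) * (n ξ ψ₂ : ℂ) := by
      have h3 : (fun m : M => g m) =
          fun m : M => ∑ ξ ∈ irrF X, (((n ξ ψ₁ + n ξ ψ₁' : ℕ) : ℂ) / 2) * ξ m :=
        funext fun m => hexpg m
      rw [h3, pr_sum_left (irrF X) (fun ξ => (((n ξ ψ₁ + n ξ ψ₁' : ℕ) : ℂ) / 2))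
        (fun ξ => fun m : M => ξ m)]
      exact Finset.sum_congr rfl fun ξ hξ => by rw [hn ξ (mem_irrF.1 hξ) ψ₂ hψ₂]
    rw [h1] at h2
    have h3 : ∑ ξ ∈ irrF X, (n ξ ψ₁ + n ξ ψ₁') * n ξ ψ₂ = 0 := by
      have h4 : ((∑ ξ ∈ irrF X, (n ξ ψ₁ + n ξ ψ₁') * n ξ ψ₂ : ℕ) : ℂ) = 0 := by
        have h5 : ((∑ ξ ∈ irrF X, (n ξ ψ₁ + n ξ ψ₁') * n ξ ψ₂ : ℕ) : ℂ) =
            2 * ∑ ξ ∈ irrF X, (((n ξ ψ₁ + n ξ ψ₁' : ℕ) : ℂ) / 2) * (n ξ ψ₂ : ℂ) := by
          rw [Finset.mul_sum]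
          push_cast
          exact Finset.sum_congr rfl fun ξ _ => by ring
        rw [h5, ← h2, mul_zero]
      exact_mod_cast h4
    rw [Finset.sum_eq_zero_iff] at h3
    have h4 := h3 χ (mem_irrF.2 hχ)
    rcases mul_eq_zero.1 h4 with h5 | h5
    · omega
    · exact h5
  -- the degree
  obtain ⟨d, hd1⟩ := hd ψ₁ hψ₁
  have hdeg : χ 1 = ((∑ ψ ∈ irrF M, n χ ψ : ℕ) : ℂ) * ψ₁ 1 := by
    have h1 := hexp χ hχ 1
    rw [OneMemClass.coe_one] at h1
    rw [h1]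
    push_cast
    rw [Finset.sum_mul]
    refine Finset.sum_congr rfl fun ψ hψ => ?_
    by_cases h2 : ψ₁ = ψ
    · rw [h2]
    by_cases h3 : ψ₁' = ψ
    · rw [← h3, hone]
    · rw [hclaim ψ (mem_irrF.1 hψ) h2 h3]
      simp
  have hle : ∑ ψ ∈ irrF M, n χ ψ ≤ ∑ ψ ∈ irrF M, n χ ψ ^ 2 :=
    Finset.sum_le_sum fun ψ _ => Nat.le_self_pow two_ne_zero _
  have hge : 1 ≤ ∑ ψ ∈ irrF M, n χ ψ := by
    have h1 := Finset.single_le_sum (f := fun ψ => n χ ψ) (fun ψ _ => Nat.zero_le _)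
      (mem_irrF.2 hψ₁)
    omega
  have h12 : ∑ ψ ∈ irrF M, n χ ψ = 1 ∨ ∑ ψ ∈ irrF M, n χ ψ = 2 := by omega
  rcases h12 with h1 | h1
  · exact ⟨d, by rw [hdeg, h1, hd1]; push_cast; ring⟩
  · exact ⟨d + 1, by rw [hdeg, h1, hd1]; push_cast; ring⟩

end

/-- **The degrees are powers of two.** -/
theorem deg_two_pow : ∀ (N : ℕ) (X : Type) [Group X] [Finite X], Nat.card X = N →
    ∀ (A : Subgroup X) (_ : A.Normal) (_ : ∀ a ∈ A, ∀ b ∈ A, a * b = b * a)
      (_ : ∀ x : X, ∃ k : ℕ, x ^ 2 ^ k ∈ A), ∀ χ ∈ Irr X, ∃ d : ℕ, χ 1 = ((2 ^ d : ℕ) : ℂ) := by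
  intro N
  induction N using Nat.strong_induction_on with
  | _ N ih =>
  intro X _ _ hXN A hA hab h2 χ hχ
  by_cases hAtop : A = ⊤
  · refine ⟨0, ?_⟩
    rw [irr_comm (fun a b => hab a (by rw [hAtop]; exact mem_top a) b
      (by rw [hAtop]; exact mem_top b)) hχ]
    simp
  have hP : IsPGroup 2 (X ⧸ A) := by
    intro x
    obtain ⟨g, rfl⟩ := QuotientGroup.mk'_surjective A x
    obtain ⟨k, hk⟩ := h2 g
    exact ⟨k, by rw [← map_pow]; exact (QuotientGroup.eq_one_iff _).2 hk⟩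
  have hnt : Nontrivial (X ⧸ A) := by
    rw [← not_subsingleton_iff_nontrivial]
    intro h
    exact hAtop (QuotientGroup.subgroup_eq_top_of_subsingleton _ h)
  obtain ⟨ψ, hψ, y, hy⟩ := exists_quad hP hnt
  obtain ⟨x₀, rfl⟩ := QuotientGroup.mk'_surjective A y
  let ε : X →* ℂˣ := ψ.comp (QuotientGroup.mk' A)
  have hε : ∀ x, ε x ^ 2 = 1 := by
    intro x
    rw [← map_pow]
    change ψ (QuotientGroup.mk' A (x ^ 2)) = 1
    rw [map_pow, hψ]
  have hx₀ : ε x₀ ≠ 1 := hy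
  refine deg_index_two ε hε hx₀ hχ ?_
  have hlt : Nat.card ε.ker < N := by
    rw [← hXN]
    apply lt_of_le_of_ne (Subgroup.card_le_card_group _)
    intro h
    have h3 := Subgroup.eq_top_of_card_eq _ h
    apply hx₀
    have h4 : x₀ ∈ ε.ker := by rw [h3]; exact mem_top _
    exact h4
  refine ih _ hlt ε.ker rfl (A.subgroupOf ε.ker) inferInstance ?_ ?_
  · rintro ⟨a, ha⟩ ha' ⟨b, hb⟩ hb'
    exact Subtype.ext (hab a ha' b hb')
  · rintro ⟨x, hx⟩
    obtain ⟨k, hk⟩ := h2 x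
    refine ⟨k, ?_⟩
    rw [mem_subgroupOf]
    simpa using hk

end Pool.Agent.H701.CP
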