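import Mathlib
import Pool.Agent.H701.CP.Num

/-!
# Twisted groups contain the quaternion group
-/

set_option autoImplicit false
set_option linter.unusedSectionVars false

namespace Pool.Agent.H701.CP

open Subgroup Pool.Agent.Q92.AR

/-- The quaternion group from relations. -/
lemma exists_quat_hom {R : Type} [Group R] {x y : R} (hx4 : x ^ 4 = 1) (hx2 : x ^ 2 ≠ 1)
    (hy : y ^ 2 = x ^ 2) (hxy : y⁻¹ * x * y = x⁻¹) :
    ∃ F : QuaternionGroup 2 →* R, Function.Injective F ∧ F (QuaternionGroup.a 2) = x ^ 2 := by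
  let X : ZMod (2 * 2) →+ Additive R :=
    ZMod.lift (2 * 2) ⟨zmultiplesHom (Additive R) (Additive.ofMul x), by
      change Additive.ofMul (x ^ (((2 * 2 : ℕ) : ℤ))) = 0
      rw [zpow_natCast, hx4]; rfl⟩
  have hXcast : ∀ k : ℤ, (X (k : ZMod (2 * 2))).toMul = x ^ k := by
    intro k
    simp only [X]
    rw [ZMod.lift_coe]
    rfl
  have hXadd : ∀ i j : ZMod (2 * 2), (X (i + j)).toMul = (X i).toMul * (X j).toMul := by
    intro i j; rw [map_add]; rfl
  have hXsub : ∀ i j : ZMod (2 * 2), (X (i - j)).toMul = (X i).toMul * ((X j).toMul)⁻¹ := by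
    intro i j
    rw [map_sub]
    change (X i).toMul / (X j).toMul = _
    rw [div_eq_mul_inv]
  have hconj : ∀ i : ZMod (2 * 2), y⁻¹ * (X i).toMul * y = ((X i).toMul)⁻¹ := by
    intro i
    obtain ⟨k, rfl⟩ := ZMod.intCast_surjective i
    rw [hXcast]
    have : y⁻¹ * x ^ k * y = (y⁻¹ * x * y) ^ k := by
      have h := conj_zpow (i := k) (a := y⁻¹) (b := x)
      rw [inv_inv] at h
      exact h.symm
    rw [this, hxy, inv_zpow]
  have hcomm : ∀ i : ZMod (2 * 2), (X i).toMul * y = y * ((X i).toMul)⁻¹ := by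
    intro i
    rw [← hconj i]; group
  have hXcomm : ∀ i j : ZMod (2 * 2), (X i).toMul * (X j).toMul = (X j).toMul * (X i).toMul := by
    intro i j
    rw [← hXadd, add_comm, hXadd]
  let F0 : QuaternionGroup 2 → R
    | QuaternionGroup.a i => (X i).toMul
    | QuaternionGroup.xa i => y * (X i).toMul
  have hF0a : ∀ i, F0 (QuaternionGroup.a i) = (X i).toMul := fun i => rfl
  have hF0xa : ∀ i, F0 (QuaternionGroup.xa i) = y * (X i).toMul := fun i => rfl
  have hX2 : (X ((2 : ℕ) : ZMod (2 * 2))).toMul = x ^ 2 := by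
    have := hXcast 2
    rw [zpow_ofNat] at this
    exact_mod_cast this
  have hmul : ∀ u v, F0 (u * v) = F0 u * F0 v := by
    rintro (i | i) (j | j)
    · rw [QuaternionGroup.a_mul_a, hF0a, hF0a, hF0a, hXadd]
    · rw [QuaternionGroup.a_mul_xa, hF0a, hF0xa, hF0xa, hXsub]
      have h2 : (X j).toMul * ((X i).toMul)⁻¹ = ((X i).toMul)⁻¹ * (X j).toMul := by
        rw [mul_inv_eq_iff_eq_mul, mul_assoc, eq_inv_mul_iff_mul_eq]
        exact hXcomm i j
      rw [h2, ← mul_assoc, ← mul_assoc, hcomm i]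
    · rw [QuaternionGroup.xa_mul_a, hF0a, hF0xa, hF0xa, hXadd, mul_assoc]
    · rw [QuaternionGroup.xa_mul_xa, hF0a, hF0xa, hF0xa, hXsub, hXadd]
      rw [hX2]
      have h3 : (X j).toMul * ((X i).toMul)⁻¹ = ((X i).toMul)⁻¹ * (X j).toMul := by
        rw [mul_inv_eq_iff_eq_mul, mul_assoc, eq_inv_mul_iff_mul_eq]
        exact hXcomm i j
      calc x ^ 2 * (X j).toMul * ((X i).toMul)⁻¹
          = y ^ 2 * (((X i).toMul)⁻¹ * (X j).toMul) := by rw [mul_assoc, h3, hy]
        _ = y * (y * ((X i).toMul)⁻¹) * (X j).toMul := by rw [sq]; group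
        _ = y * ((X i).toMul * y) * (X j).toMul := by rw [hcomm]
        _ = y * (X i).toMul * (y * (X j).toMul) := by group
  let F : QuaternionGroup 2 →* R := MonoidHom.mk' F0 hmul
  have hord : orderOf x = 2 ^ (1 + 1) := by
    apply orderOf_eq_prime_pow
    · rw [pow_one]; exact hx2
    · exact hx4
  refine ⟨F, ?_, hX2⟩
  rw [injective_iff_map_eq_one]
  rintro (i | i) hi
  · change (X i).toMul = 1 at hi
    obtain ⟨k, rfl⟩ := ZMod.intCast_surjective i
    rw [hXcast, ← orderOf_dvd_iff_zpow_eq_one, hord] at hi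
    have : ((k : ℤ) : ZMod (2 * 2)) = 0 := by
      rw [ZMod.intCast_zmod_eq_zero_iff_dvd]
      exact hi
    rw [this]; rfl
  · exfalso
    change y * (X i).toMul = 1 at hi
    obtain ⟨k, rfl⟩ := ZMod.intCast_surjective i
    rw [hXcast] at hi
    have h1 : y = (x ^ k)⁻¹ := eq_inv_of_mul_eq_one_left hi
    have h2 : y⁻¹ * x * y = x := by
      rw [h1, inv_inv]; group
    rw [h2] at hxy
    apply hx2
    rw [sq]
    nth_rewrite 1 [hxy]
    exact inv_mul_cancel _

/-- a twisted group contains a quaternion group with centre `{1, z}` -/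
lemma Twisted.exists_quat {X : Type} [Group X] {E : Subgroup X} {z t : X}
    (h : Twisted X E z t) :
    ∃ F : QuaternionGroup 2 →* X, Function.Injective F ∧ F (QuaternionGroup.a 2) = z := by
  have hzc := mem_center_iff.1 h.central
  have hzz := h.z_sq
  -- squares and commutators
  have hone : ∀ x ∈ E, x ^ 2 ∈ zpowers z := by
    intro x hx
    rw [h.mem_zpowers]
    exact h.sq x hx
  have hcm : ∀ x ∈ E, ∀ y ∈ E, x * y * x⁻¹ * y⁻¹ = 1 ∨ x * y * x⁻¹ * y⁻¹ = z := by
    intro a ha b hb
    rw [← h.mem_zpowers]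
    have h1 : a * b * a⁻¹ * b⁻¹ = (a * b) ^ 2 * (b⁻¹ * a⁻¹ * b) ^ 2 * (b⁻¹) ^ 2 := by
      simp only [pow_two]; group
    rw [h1]
    exact mul_mem (mul_mem (hone _ (mul_mem ha hb))
      (hone _ (mul_mem (mul_mem (inv_mem hb) (inv_mem ha)) hb))) (hone _ (inv_mem hb))
  -- the elements of order four
  let S : Set X := {x | x ∈ E ∧ x ^ 2 = z}
  have hSE : closure S ≤ E := (closure_le E).2 fun x hx => hx.1
  have hinv : ∀ x ∈ closure S, t * x * t⁻¹ ∈ closure S := by
    intro y hy
    induction hy using closure_induction with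
    | mem y hy =>
      refine subset_closure ⟨h.normal.conj_mem y hy.1 t, ?_⟩
      rw [conj_pow, hy.2, hzc t]
      group
    | one => rw [mul_one, mul_inv_cancel]; exact one_mem _
    | mul a b _ _ ha hb =>
      have e : t * (a * b) * t⁻¹ = (t * a * t⁻¹) * (t * b * t⁻¹) := by group
      rw [e]; exact mul_mem ha hb
    | inv a _ ha =>
      have e : t * a⁻¹ * t⁻¹ = (t * a * t⁻¹)⁻¹ := by group
      rw [e]; exact inv_mem ha
  obtain ⟨a₀, ha₀, b₀, hb₀, hab⟩ := h.nonab
  have hSne : ∃ x, x ∈ S := by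
    by_contra hcon
    push Not at hcon
    have h1 : ∀ x ∈ E, x⁻¹ = x := by
      intro x hx
      have h2 : x ^ 2 = 1 := (h.sq x hx).resolve_right fun h3 => hcon x ⟨hx, h3⟩
      rw [pow_two] at h2
      exact inv_eq_of_mul_eq_one_left h2
    apply hab
    have h2 := h1 _ (mul_mem ha₀ hb₀)
    rw [mul_inv_rev, h1 _ ha₀, h1 _ hb₀] at h2
    exact h2.symm
  have hSeq : closure S = E := by
    rcases h.irred (closure S) hSE hinv with h1 | h1
    · exact h1
    · exfalso
      obtain ⟨x, hx⟩ := hSne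
      rcases h1 x (subset_closure hx) with h2 | h2
      · have h3 := hx.2
        rw [h2, one_pow] at h3
        exact h.ne h3.symm
      · have h3 := hx.2
        rw [h2, pow_two, hzz] at h3
        exact h.ne h3.symm
  obtain ⟨x, hx, y, hy, hxy⟩ : ∃ x ∈ S, ∃ y ∈ S, x * y ≠ y * x := by
    by_contra hcon
    push Not at hcon
    have hc := Subgroup.isMulCommutative_closure (k := S) hcon
    apply hab
    have h1 : a₀ ∈ closure S := by rw [hSeq]; exact ha₀
    have h2 : b₀ ∈ closure S := by rw [hSeq]; exact hb₀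
    exact congrArg Subtype.val (hc.is_comm.comm (⟨a₀, h1⟩ : closure S) ⟨b₀, h2⟩)
  have hx2 : x ^ 2 ≠ 1 := by rw [hx.2]; exact h.ne
  have hx4 : x ^ 4 = 1 := by
    rw [show (4 : ℕ) = 2 * 2 by norm_num, pow_mul, hx.2, pow_two, hzz]
  have hyx : y⁻¹ * x * y = x⁻¹ := by
    have h1 : y⁻¹ * x * y⁻¹⁻¹ * x⁻¹ = z := by
      refine (hcm _ (inv_mem hy.1) _ hx.1).resolve_left fun h2 => hxy ?_
      rw [inv_inv, mul_inv_eq_one, mul_assoc, inv_mul_eq_iff_eq_mul] at h2
      exact h2
    rw [inv_inv, mul_inv_eq_iff_eq_mul] at h1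
    rw [h1, eq_comm, inv_eq_iff_mul_eq_one, ← mul_assoc, hzc x, mul_assoc, ← pow_two, hx.2, hzz]
  obtain ⟨F, hF, hF2⟩ := exists_quat_hom hx4 hx2 (by rw [hx.2, hy.2]) hyx
  exact ⟨F, hF, by rw [hF2, hx.2]⟩

section
variable (K M : Type) [Field K] [NumberField K] [Field M] [NumberField M] [Algebra K M]

/-- **Quaternion zeros**: a surjection `f` of a subgroup `H` of the Galois group onto the quaternion
group of order eight such that `ζ_{F'} / ζ_B` vanishes at `1/2`, where `B ⊆ F'` are the fields fixed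
by `f ⁻¹ {1, -1}` and by the kernel of `f`. -/
def QuatZero : Prop :=
  ∃ (H : Subgroup (M ≃ₐ[K] M)) (f : H →* QuaternionGroup 2), Function.Surjective f ∧
    zord K M (f.ker.map H.subtype) ≠
      zord K M (((zpowers (QuaternionGroup.a 2)).comap f).map H.subtype)

theorem quat_of_twist (h : TwistZero K M) : QuatZero K M := by
  obtain ⟨H, X, _, f, E, z, t, hf, hT, hne⟩ := h
  obtain ⟨F, hF, hFz⟩ := hT.exists_quat
  let e := MonoidHom.ofInjective hF
  -- the subgroup
  let C : Subgroup H := F.range.comap f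
  let q : C →* F.range := f.subgroupComap F.range
  have hq : Function.Surjective q := f.subgroupComap_surjective_of_surjective F.range hf
  let i := C.equivMapOfInjective H.subtype H.subtype_injective
  let g : (C.map H.subtype : Subgroup (M ≃ₐ[K] M)) →* QuaternionGroup 2 :=
    (e.symm.toMonoidHom.comp q).comp i.symm.toMonoidHom
  have hFe : ∀ w : F.range, F (e.symm w) = w := by
    intro w
    have : (e (e.symm w) : X) = F (e.symm w) := rfl
    rw [← this, MulEquiv.apply_symm_apply]
  have hgF : ∀ c : C, F (g (i c)) = f c := by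
    intro c
    change F (e.symm (q (i.symm (i c)))) = f c
    rw [hFe, MulEquiv.symm_apply_apply]
    rfl
  have hic : ∀ c : C, ((i c : (C.map H.subtype : Subgroup (M ≃ₐ[K] M))) : M ≃ₐ[K] M) = (c : H) :=
    fun c => rfl
  refine ⟨C.map H.subtype, g, ?_, ?_⟩
  · exact (e.symm.surjective.comp hq).comp i.symm.surjective
  · have e1 : g.ker.map (C.map H.subtype : Subgroup (M ≃ₐ[K] M)).subtype =
        f.ker.map H.subtype := by
      ext u
      constructor
      · rintro ⟨w, hw, rfl⟩
        obtain ⟨c, rfl⟩ := i.surjective w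
        refine ⟨(c : H), ?_, (hic c).symm⟩
        have h1 : g (i c) = 1 := hw
        change f c = 1
        rw [← hgF, h1, map_one]
      · rintro ⟨v, hv, rfl⟩
        have h1 : f v = 1 := hv
        have hvC : v ∈ C := by
          change f v ∈ F.range
          rw [h1]; exact one_mem _
        refine ⟨i ⟨v, hvC⟩, ?_, hic ⟨v, hvC⟩⟩
        change g (i ⟨v, hvC⟩) = 1
        apply hF
        rw [hgF, map_one]
        exact h1
    have e2 : ((zpowers (QuaternionGroup.a 2)).comap g).map
        (C.map H.subtype : Subgroup (M ≃ₐ[K] M)).subtype =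
        ((zpowers z).comap f).map H.subtype := by
      ext u
      constructor
      · rintro ⟨w, hw, rfl⟩
        obtain ⟨c, rfl⟩ := i.surjective w
        refine ⟨(c : H), ?_, (hic c).symm⟩
        have h1 : g (i c) ∈ zpowers (QuaternionGroup.a 2) := hw
        obtain ⟨k, hk⟩ := mem_zpowers_iff.1 h1
        change f c ∈ zpowers z
        rw [← hgF, ← hk, map_zpow, hFz]
        exact zpow_mem (mem_zpowers z) k
      · rintro ⟨v, hv, rfl⟩
        have h1 : f v ∈ zpowers z := hv
        obtain ⟨k, hk⟩ := mem_zpowers_iff.1 h1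
        have hvC : v ∈ C := by
          change f v ∈ F.range
          exact ⟨QuaternionGroup.a 2 ^ k, by rw [map_zpow, hFz, hk]⟩
        refine ⟨i ⟨v, hvC⟩, ?_, hic ⟨v, hvC⟩⟩
        change g (i ⟨v, hvC⟩) ∈ zpowers (QuaternionGroup.a 2)
        have h2 : g (i ⟨v, hvC⟩) = QuaternionGroup.a 2 ^ k := by
          apply hF
          rw [hgF, map_zpow, hFz, hk]
        rw [h2]
        exact zpow_mem (mem_zpowers _) k
    rw [e1, e2]
    exact hne

end

end Pool.Agent.H701.CP
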