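import Mathlib
import Pool.Agent.H701.CP.Deg
import Pool.Agent.H701.CP.Quat

/-!
# The central point: summary for Galois extensions of number fields
-/

set_option autoImplicit false
set_option linter.unusedSectionVars false

namespace Pool.Agent.H701.CP

open Subgroup Pool.Agent.H302R2 Pool.Agent.H541R3.ART Pool.Agent.W446.AS Pool.Agent.TH820
  Pool.Agent.Q92.AR

/-- the degrees of the irreducible characters which are trivial on the kernel in `O²(G)` -/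
theorem deg_of_triv {G : Type} [Group G] [Finite G] (N : Subgroup G) [N.Normal]
    (hab : ∀ x ∈ oddGen G, ∀ y ∈ oddGen G, x * y * x⁻¹ * y⁻¹ ∈ N) {χ : G → ℂ} (hχ : χ ∈ Irr G)
    (hN : ∀ x ∈ N, χ x = χ 1) : ∃ d : ℕ, χ 1 = ((2 ^ d : ℕ) : ℂ) := by
  let π : G →* G ⧸ N := QuotientGroup.mk' N
  have hπ : Function.Surjective π := QuotientGroup.mk'_surjective N
  obtain ⟨m, ρ, hρ, rfl⟩ := exists_rep hχ
  obtain ⟨ψ, hψ, h1⟩ := descend_irr (π := π) hπ hρ (by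
    intro g hg
    rw [QuotientGroup.ker_mk'] at hg
    exact rep_ker ρ hρ (hN g hg))
  have h2 := h1 1
  rw [map_one] at h2
  rw [h2]
  refine deg_two_pow _ (G ⧸ N) rfl ((oddGen G).map π) (Subgroup.Normal.map inferInstance π hπ)
    ?_ ?_ ψ hψ
  · rintro _ ⟨a, ha, rfl⟩ _ ⟨b, hb, rfl⟩
    have h3 : π (a * b * a⁻¹ * b⁻¹) = 1 := (QuotientGroup.eq_one_iff _).2 (hab a ha b hb)
    rw [map_mul, map_mul, map_mul, map_inv, map_inv, mul_inv_eq_one, mul_inv_eq_iff_eq_mul] at h3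
    exact h3
  · intro x
    obtain ⟨g, rfl⟩ := hπ x
    obtain ⟨k, hk⟩ := pow_mem_oddGen g
    exact ⟨k, by rw [← map_pow]; exact ⟨_, hk, rfl⟩⟩

section
variable {K M : Type} [Field K] [NumberField K] [Field M] [NumberField M] [Algebra K M]
  [IsGalois K M]

theorem central_point {r : ℕ}
    (hr : meromorphicOrderAt (cont (NumberField.dedekindZeta M)) (1 / 2) = (r : WithTop ℤ))
    (hp : ∀ p : ℕ, p.Prime → p ≠ 2 → p ∣ Nat.card (M ≃ₐ[K] M) → r < 2 * p)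
    (hT : ¬ TwistZero K M) :
    ∃ N : Subgroup (M ≃ₐ[K] M), N.Normal ∧ N ≤ oddGen (M ≃ₐ[K] M) ∧
      (∀ x ∈ oddGen (M ≃ₐ[K] M), ∀ y ∈ oddGen (M ≃ₐ[K] M), x * y * x⁻¹ * y⁻¹ ∈ N) ∧
      (∀ x ∈ oddGen (M ≃ₐ[K] M), ∀ k : ℕ, x ^ 2 ^ k = 1 → x ∈ N) ∧
      ∀ χ ∈ Irr (M ≃ₐ[K] M), Continues (cont (artinL M χ)) (artinL M χ) ∧
        0 ≤ meromorphicOrderAt (cont (artinL M χ)) (1 / 2) ∧
        (meromorphicOrderAt (cont (artinL M χ)) (1 / 2) ≠ 0 →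
          (∀ x ∈ N, χ x = χ 1) ∧ ∃ d : ℕ, χ 1 = ((2 ^ d : ℕ) : ℂ) ∧ 2 ^ d ≤ r) := by
  classical
  have h0 : 0 < (1 / 2 : ℂ).re := by norm_num
  have h1 : (1 / 2 : ℂ) ≠ 1 := by norm_num
  have hC := continued (K := K) (M := M) h0 h1
  obtain ⟨hc, hNT⟩ := central_theta hC h0 hT
  set A := ArtinData.ofExtension hC with hA
  have hr' : meromorphicOrderAt (A.Lin ⊥ 1) (1 / 2) = (r : WithTop ℤ) :=
    (lin_bot hC h0).trans hr
  have hone := A.theta_one hr'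
  have hv := theta_virt (G := (M ≃ₐ[K] M)) A.ord
  have hpos := core_real hc hv hNT hone hp
  obtain ⟨N, hN, hle, hmem, hab, h2⟩ := exists_kernel hc hv hNT hone hp
  have hposA : ∀ χ ∈ Irr (M ≃ₐ[K] M), 0 ≤ meromorphicOrderAt (A.L χ) (1 / 2) := by
    intro χ hχ
    obtain ⟨k, hk⟩ := hpos χ hχ
    rw [ord_of_pr A hχ (k := (k : ℤ)) (by rw [hk]; push_cast; rfl)]
    exact_mod_cast Int.natCast_nonneg k
  refine ⟨N, hN, hle, hab, h2, fun χ hχ => ⟨cont_spec (hC.brauer χ hχ), hposA χ hχ,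
    fun hne => ?_⟩⟩
  have hne' : meromorphicOrderAt (A.L χ) (1 / 2) ≠ 0 := hne
  have hpr : pr (theta A.ord : (M ≃ₐ[K] M) → ℂ) χ ≠ 0 := by
    intro h
    apply hne'
    rw [ord_of_pr A hχ (k := 0) (by rw [h]; simp)]
    rfl
  have hker : ∀ x ∈ N, χ x = χ 1 := fun x hx =>
    char_ker_of_pos hv hpos ((hmem x).1 hx).2 hχ hpr
  obtain ⟨d, hd⟩ := deg_of_triv N hab hχ hker
  obtain ⟨e, he, her⟩ := Pool.Agent.Q92.DZ.deg_le A hr' hposA χ hχ hne'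
  refine ⟨hker, d, hd, ?_⟩
  have h3 : e = 2 ^ d := by
    rw [hd] at he
    exact_mod_cast he.symm
  omega

end

end Pool.Agent.H701.CP
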