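import Mathlib
import Pool.Agent.H701.CP.Fin

/-!
# The central point: quotients of Dedekind zeta functions
-/

set_option autoImplicit false
set_option linter.unusedSectionVars false

namespace Pool.Agent.H701.CP

open Subgroup Pool.Agent.H302R2 Pool.Agent.H541R3.ART Pool.Agent.W446.AS Pool.Agent.TH820
  Pool.Agent.Q92.AR

section
variable {G : Type} [Group G] [Finite G] {θ : G → ℂ}

/-- multiplicities of linear characters in characters grow under restriction -/
theorem mult_mono_top (hv : Virt θ) (hpos : ∀ χ ∈ Irr G, ∃ k : ℕ, pr θ χ = k) (ρ : G →* ℂˣ)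
    (H : Subgroup G) {a b : ℕ}
    (ha : ∑ᶠ x : G, θ x * (((ρ x)⁻¹ : ℂˣ) : ℂ) = (a : ℂ) * Nat.card G)
    (hb : ∑ᶠ x : H, θ x * (((ρ x)⁻¹ : ℂˣ) : ℂ) = (b : ℂ) * Nat.card H) : a ≤ b := by
  classical
  have : Fintype G := Fintype.ofFinite G
  have : Fintype H := Fintype.ofFinite H
  choose! k hk using hpos
  choose! m hm using fun χ (hχ : χ ∈ Irr G) => exists_mult hχ H (ρ.comp H.subtype)
  let χ₀ : G → ℂ := fun g => ((ρ g : ℂˣ) : ℂ)
  have hχ₀ : χ₀ ∈ Irr G := lin_irr ρ
  have hG : (Nat.card G : ℂ) ≠ 0 := card_ne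
  have hH : (Nat.card H : ℂ) ≠ 0 := card_ne
  have h1 : pr θ χ₀ = a := by
    rw [pr, mul_comm, ← div_eq_mul_inv, div_eq_iff hG, ← ha]
    refine finsum_congr fun g => ?_
    change θ g * ((ρ g⁻¹ : ℂˣ) : ℂ) = _
    rw [map_inv]
  have h2 : m χ₀ = 1 := by
    have h3 := hm χ₀ hχ₀
    rw [finsum_eq_sum_of_fintype] at h3
    have h4 : ∀ x : H, χ₀ x * ((((ρ.comp H.subtype) x)⁻¹ : ℂˣ) : ℂ) = 1 := by
      intro x
      change ((ρ (x : G) : ℂˣ) : ℂ) * (((ρ (x : G))⁻¹ : ℂˣ) : ℂ) = 1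
      rw [← Units.val_mul, mul_inv_cancel, Units.val_one]
    rw [Finset.sum_congr rfl (fun x _ => h4 x)] at h3
    simp only [Finset.sum_const, Finset.card_univ, nsmul_eq_mul, mul_one,
      ← Nat.card_eq_fintype_card] at h3
    have h5 : (m χ₀ : ℂ) = 1 := by
      apply mul_right_cancel₀ hH
      rw [← h3, one_mul]
    exact_mod_cast h5
  have h3 : (b : ℂ) * Nat.card H = ∑ χ ∈ irrF G, ((k χ * m χ : ℕ) : ℂ) * Nat.card H := by
    rw [← hb, finsum_eq_sum_of_fintype]
    have h4 : ∀ x : H, θ (x : G) * (((ρ (x : G))⁻¹ : ℂˣ) : ℂ) =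
        ∑ χ ∈ irrF G, (k χ : ℂ) * (χ x * ((((ρ.comp H.subtype) x)⁻¹ : ℂˣ) : ℂ)) := by
      intro x
      rw [hv.expand x, Finset.sum_mul]
      refine Finset.sum_congr rfl fun χ hχ => ?_
      rw [hk χ (mem_irrF.1 hχ)]
      change (k χ : ℂ) * χ x * (((ρ (x : G))⁻¹ : ℂˣ) : ℂ) =
        (k χ : ℂ) * (χ x * (((ρ (x : G))⁻¹ : ℂˣ) : ℂ))
      ring
    rw [Finset.sum_congr rfl (fun x _ => h4 x), Finset.sum_comm]
    refine Finset.sum_congr rfl fun χ hχ => ?_
    rw [← Finset.mul_sum]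
    have h5 := hm χ (mem_irrF.1 hχ)
    rw [finsum_eq_sum_of_fintype] at h5
    rw [h5]
    push_cast
    ring
  rw [← Finset.sum_mul] at h3
  have h4 := mul_right_cancel₀ hH h3
  have h5 : b = ∑ χ ∈ irrF G, k χ * m χ := by exact_mod_cast h4
  have h6 : k χ₀ * m χ₀ ≤ ∑ χ ∈ irrF G, k χ * m χ :=
    Finset.single_le_sum (f := fun χ => k χ * m χ) (fun χ _ => Nat.zero_le _)
      (mem_irrF.2 hχ₀)
  have h7 : k χ₀ = a := by
    have := hk χ₀ hχ₀
    rw [h1] at this
    exact_mod_cast this.symm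
  rw [h2, mul_one, h7, ← h5] at h6
  exact h6

/-- the version for two subgroups -/
theorem mult_mono (hc : Central θ) (hv : Virt θ) (hNT : NT θ) {r : ℕ} (hr : θ 1 = r)
    (hp : ∀ p : ℕ, p.Prime → p ≠ 2 → p ∣ Nat.card G → r < 2 * p) (H U : Subgroup G) (hHU : H ≤ U)
    (ρ : U →* ℂˣ) {a b : ℕ}
    (ha : ∑ᶠ x : U, θ x * (((ρ x)⁻¹ : ℂˣ) : ℂ) = (a : ℂ) * Nat.card U)
    (hb : ∑ᶠ x : H, θ x * ((((ρ.comp (inclusion hHU)) x)⁻¹ : ℂˣ) : ℂ) = (b : ℂ) * Nat.card H) :
    a ≤ b := by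
  classical
  have hcU := hc.comp U.subtype
  have hvU := hv.comp U.subtype
  have hNTU := hNT.sub U.subtype U.subtype_injective
  have hpU : ∀ p : ℕ, p.Prime → p ≠ 2 → p ∣ Nat.card U → r < 2 * p :=
    fun p h1 h2 h3 => hp p h1 h2 (h3.trans (card_subgroup_dvd_card U))
  let e : H ≃ H.subgroupOf U :=
    { toFun := fun u => ⟨inclusion hHU u, u.2⟩
      invFun := fun u => ⟨u.1, u.2⟩
      left_inv := fun _ => rfl
      right_inv := fun _ => rfl }
  refine mult_mono_top hvU (core_real hcU hvU hNTU (r := r) (by simpa using hr) hpU) ρ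
    (H.subgroupOf U) ha ?_
  rw [← Nat.card_congr e, ← hb]
  exact (finsum_comp_equiv e (f := fun x : H.subgroupOf U =>
      θ ((x : U) : G) * (((ρ (x : U))⁻¹ : ℂˣ) : ℂ))).symm

/-- the function is constant on the cosets of a subgroup of the kernel -/
theorem const_of_ker (hv : Virt θ) (hpos : ∀ χ ∈ Irr G, ∃ k : ℕ, pr θ χ = k) {n : G}
    (hn : θ n = θ 1) (x : G) : θ (x * n) = θ x := by
  classical
  rw [hv.expand, hv.expand x]
  refine Finset.sum_congr rfl fun χ hχ => ?_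
  by_cases h0 : pr θ χ = 0
  · rw [h0, zero_mul, zero_mul]
  have h1 := char_ker_of_pos hv hpos hn (mem_irrF.1 hχ) h0
  obtain ⟨m, ρ, hρ, rfl⟩ := exists_rep (mem_irrF.1 hχ)
  have h2 := rep_ker ρ hρ h1
  have h3 : ρ.character (x * n) = ρ.character x := by
    unfold Representation.character
    rw [map_mul, h2, mul_one]
  rw [h3]

/-- sums along surjective homomorphisms -/
theorem sum_surj {A B : Type} [Group A] [Group B] [Fintype A] [Fintype B] (f : A →* B)
    (hf : Function.Surjective f) (g : B → ℂ) :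
    (∑ a, g (f a)) * (Nat.card B : ℂ) = (∑ b, g b) * (Nat.card A : ℂ) := by
  classical
  have h1 : ∀ b : B, (Finset.univ.filter (fun a => f a = b)).card =
      (Finset.univ.filter (fun a => f a = 1)).card := fun b =>
    MonoidHom.card_fiber_eq_of_mem_range f (hf b) (hf 1)
  set c := (Finset.univ.filter (fun a => f a = 1)).card with hc
  have h2 : ∑ a, g (f a) = ∑ b, (c : ℂ) * g b := by
    rw [← Finset.sum_fiberwise (s := Finset.univ) (g := f) (f := fun a => g (f a))]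
    refine Finset.sum_congr rfl fun b _ => ?_
    rw [Finset.sum_congr rfl (g := fun _ => g b) (fun a ha => by
      rw [(Finset.mem_filter.1 ha).2]), Finset.sum_const, h1 b, nsmul_eq_mul]
  have h3 : (Nat.card A : ℂ) = c * (Nat.card B : ℂ) := by
    have h4 : Nat.card A = ∑ b : B, (Finset.univ.filter (fun a => f a = b)).card := by
      rw [Nat.card_eq_fintype_card, ← Finset.card_univ]
      exact Finset.card_eq_sum_card_fiberwise (fun a _ => Finset.mem_coe.2 (Finset.mem_univ _))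
    rw [h4, Finset.sum_congr rfl (fun b _ => h1 b), Finset.sum_const, Finset.card_univ,
      ← Nat.card_eq_fintype_card, smul_eq_mul, mul_comm]
    push_cast
    ring
  rw [h2, h3, ← Finset.mul_sum]
  ring

/-- mean values over `H` and `H N` -/
theorem mean_sup (N : Subgroup G) [N.Normal] (hN : ∀ x, ∀ n ∈ N, θ (x * n) = θ x) (H : Subgroup G)
    {a b : ℕ} (ha : ∑ᶠ x : H, θ x = (a : ℂ) * Nat.card H)
    (hb : ∑ᶠ x : (H ⊔ N : Subgroup G), θ x = (b : ℂ) * Nat.card (H ⊔ N : Subgroup G)) : a = b := by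
  classical
  let π : G →* G ⧸ N := QuotientGroup.mk' N
  have : Fintype (G ⧸ N) := Fintype.ofFinite _
  let τ : G ⧸ N → ℂ := fun y => θ (Function.surjInv (QuotientGroup.mk'_surjective N) y)
  have hτ : ∀ x, τ (π x) = θ x := by
    intro x
    have h1 := Function.surjInv_eq (QuotientGroup.mk'_surjective N) (π x)
    have h2 : x⁻¹ * Function.surjInv (QuotientGroup.mk'_surjective N) (π x) ∈ N :=
      QuotientGroup.eq.1 h1.symm
    have h3 := hN x _ h2
    rw [mul_inv_cancel_left] at h3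
    exact h3
  have hmap : (H ⊔ N).map π = H.map π := by
    rw [Subgroup.map_sup, sup_eq_left]
    rintro _ ⟨n, hn, rfl⟩
    have h1 : π n = 1 := (QuotientGroup.eq_one_iff n).2 hn
    rw [h1]
    exact one_mem _
  have key : ∀ (S : Subgroup G) (c : ℕ), ∑ᶠ x : S, θ x = (c : ℂ) * Nat.card S →
      ∑ᶠ y : S.map π, τ y = (c : ℂ) * Nat.card (S.map π) := by
    intro S c hc
    have : Fintype S := Fintype.ofFinite _
    have : Fintype (S.map π) := Fintype.ofFinite _
    have h1 := sum_surj (π.subgroupMap S) (π.subgroupMap_surjective S) (fun y => τ y)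
    have h2 : ∑ x : S, τ ((π.subgroupMap S x : S.map π) : G ⧸ N) = ∑ x : S, θ x :=
      Finset.sum_congr rfl fun x _ => hτ x
    rw [h2, ← finsum_eq_sum_of_fintype, hc, ← finsum_eq_sum_of_fintype] at h1
    have hS : (Nat.card S : ℂ) ≠ 0 := card_ne
    apply mul_right_cancel₀ hS
    rw [← h1]
    ring
  have h1 := key H a ha
  have h2 := key (H ⊔ N) b hb
  rw [hmap] at h2
  rw [h1] at h2
  have hne : (Nat.card (H.map π) : ℂ) ≠ 0 := card_ne
  exact_mod_cast mul_right_cancel₀ hne h2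

end

section
variable {K M : Type} [Field K] [NumberField K] [Field M] [NumberField M] [Algebra K M]
  [IsGalois K M]

omit [IsGalois K M] in
theorem fixer_inter (L : IntermediateField K M) : fixer K L M = L.fixingSubgroup := by
  ext g
  rw [mem_fixer, IntermediateField.mem_fixingSubgroup_iff]
  exact ⟨fun h x hx => h ⟨x, hx⟩, fun h x => h x x.2⟩

theorem fixing_inf (L : IntermediateField K M) (N : Subgroup (M ≃ₐ[K] M)) :
    (L ⊓ IntermediateField.fixedField N).fixingSubgroup = L.fixingSubgroup ⊔ N := by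
  have h1 : L ⊓ IntermediateField.fixedField N =
      IntermediateField.fixedField (L.fixingSubgroup ⊔ N) := by
    apply le_antisymm
    · rw [IntermediateField.le_iff_le, sup_le_iff, ← IntermediateField.le_iff_le,
        ← IntermediateField.le_iff_le, IsGalois.fixedField_fixingSubgroup]
      exact ⟨inf_le_left, inf_le_right⟩
    · refine le_inf ?_ ?_
      · have := IntermediateField.fixedField_antitone
          (le_sup_left : L.fixingSubgroup ≤ L.fixingSubgroup ⊔ N)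
        rwa [IsGalois.fixedField_fixingSubgroup] at this
      · exact IntermediateField.fixedField_antitone le_sup_right
  rw [h1, IntermediateField.fixingSubgroup_fixedField]

/-- **Quotients of Dedekind zeta functions and Hecke L-functions at the central point.** -/
theorem central_quot {r : ℕ}
    (hr : meromorphicOrderAt (cont (NumberField.dedekindZeta M)) (1 / 2) = (r : WithTop ℤ))
    (hp : ∀ p : ℕ, p.Prime → p ≠ 2 → p ∣ Nat.card (M ≃ₐ[K] M) → r < 2 * p)
    (hT : ¬ TwistZero K M) :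
    ∃ N : Subgroup (M ≃ₐ[K] M), N.Normal ∧ N ≤ oddGen (M ≃ₐ[K] M) ∧
      (∀ x ∈ oddGen (M ≃ₐ[K] M), ∀ y ∈ oddGen (M ≃ₐ[K] M), x * y * x⁻¹ * y⁻¹ ∈ N) ∧
      (∀ x ∈ oddGen (M ≃ₐ[K] M), ∀ k : ℕ, x ^ 2 ^ k = 1 → x ∈ N) ∧
      (∀ L L' : IntermediateField K M, L ≤ L' →
        meromorphicOrderAt (cont (NumberField.dedekindZeta L)) (1 / 2) ≤
          meromorphicOrderAt (cont (NumberField.dedekindZeta L')) (1 / 2)) ∧
      (∀ L : IntermediateField K M,
        meromorphicOrderAt (cont (NumberField.dedekindZeta L)) (1 / 2) =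
          meromorphicOrderAt (cont (NumberField.dedekindZeta
            (L ⊓ IntermediateField.fixedField N : IntermediateField K M))) (1 / 2)) ∧
      (∀ (H U : Subgroup (M ≃ₐ[K] M)) (hHU : H ≤ U) (ρ : U →* ℂˣ),
        meromorphicOrderAt (cont (artinL M (Pool.Agent.Q92.RT.induced U ρ))) (1 / 2) ≤
          meromorphicOrderAt (cont (artinL M (Pool.Agent.Q92.RT.induced H
            (ρ.comp (inclusion hHU))))) (1 / 2)) ∧
      ∀ (U : Subgroup (M ≃ₐ[K] M)) (ρ : U →* ℂˣ), (∃ x : U, (x : M ≃ₐ[K] M) ∈ N ∧ ρ x ≠ 1) →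
        meromorphicOrderAt (cont (artinL M (Pool.Agent.Q92.RT.induced U ρ))) (1 / 2) = 0 := by
  classical
  have h0 : 0 < (1 / 2 : ℂ).re := by norm_num
  have h1 : (1 / 2 : ℂ) ≠ 1 := by norm_num
  have hC := continued (K := K) (M := M) h0 h1
  obtain ⟨hc, hNT⟩ := central_theta hC h0 hT
  set A := ArtinData.ofExtension hC with hA
  have hr' : meromorphicOrderAt (A.Lin ⊥ 1) (1 / 2) = (r : WithTop ℤ) :=
    (lin_bot hC h0).trans hr
  have hone := A.theta_one hr'
  have hv := theta_virt (G := (M ≃ₐ[K] M)) A.ord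
  have hpos := core_real hc hv hNT hone hp
  obtain ⟨N, hN, hle, hmem, hab, h2⟩ := exists_kernel hc hv hNT hone hp
  have hconst : ∀ x, ∀ n ∈ N, (theta A.ord : (M ≃ₐ[K] M) → ℂ) (x * n) = theta A.ord x :=
    fun x n hn => const_of_ker hv hpos ((hmem n).1 hn).2 x
  have hlin : ∀ (U : Subgroup (M ≃ₐ[K] M)) (ρ : U →* ℂˣ),
      A.Lin U ρ = cont (artinL M (Pool.Agent.Q92.RT.induced U ρ)) := fun U ρ => rfl
  have hquot : ∀ (H U : Subgroup (M ≃ₐ[K] M)) (hHU : H ≤ U) (ρ : U →* ℂˣ),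
      meromorphicOrderAt (A.Lin U ρ) (1 / 2) ≤
        meromorphicOrderAt (A.Lin H (ρ.comp (inclusion hHU))) (1 / 2) := by
    intro H U hHU ρ
    obtain ⟨a, ha, ha'⟩ := Pool.Agent.Q92.DZ.exists_order A U ρ
    obtain ⟨b, hb, hb'⟩ := Pool.Agent.Q92.DZ.exists_order A H (ρ.comp (inclusion hHU))
    rw [ha', hb']
    have := mult_mono hc hv hNT hone hp H U hHU ρ ha hb
    exact_mod_cast this
  have hone' : ∀ (U : Subgroup (M ≃ₐ[K] M)) (k : ℕ),
      ∑ᶠ x : U, (theta A.ord : (M ≃ₐ[K] M) → ℂ) x * ((((1 : U →* ℂˣ) x)⁻¹ : ℂˣ) : ℂ) =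
        (k : ℂ) * Nat.card U →
      ∑ᶠ x : U, (theta A.ord : (M ≃ₐ[K] M) → ℂ) x = (k : ℂ) * Nat.card U := by
    intro U k hk
    rw [← hk]
    exact finsum_congr fun h => by rw [MonoidHom.one_apply, inv_one, Units.val_one, mul_one]
  have hfield : ∀ L : IntermediateField K M,
      meromorphicOrderAt (cont (NumberField.dedekindZeta L)) (1 / 2) =
        meromorphicOrderAt (A.Lin L.fixingSubgroup 1) (1 / 2) := by
    intro L
    have h3 := lin_fixer (F := L) hC h0
    rw [fixer_inter] at h3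
    exact h3.symm
  refine ⟨N, hN, hle, hab, h2, ?_, ?_, hquot, ?_⟩
  · intro L L' hL
    rw [hfield, hfield]
    have h3 := hquot L'.fixingSubgroup L.fixingSubgroup
      (IntermediateField.fixingSubgroup_antitone hL) 1
    rwa [MonoidHom.one_comp] at h3
  · intro L
    rw [hfield, hfield, fixing_inf]
    obtain ⟨a, ha, ha'⟩ := Pool.Agent.Q92.DZ.exists_order A L.fixingSubgroup 1
    obtain ⟨b, hb, hb'⟩ := Pool.Agent.Q92.DZ.exists_order A (L.fixingSubgroup ⊔ N) 1
    rw [ha', hb', mean_sup N hconst L.fixingSubgroup (hone' _ _ ha) (hone' _ _ hb)]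
  · rintro U ρ ⟨x, hx, hρ⟩
    rw [← hlin]
    obtain ⟨a, ha, ha'⟩ := Pool.Agent.Q92.DZ.exists_order A U ρ
    rw [ha']
    have : Fintype U := Fintype.ofFinite _
    rw [finsum_eq_sum_of_fintype] at ha
    have h3 : ∑ y : U, (theta A.ord : (M ≃ₐ[K] M) → ℂ) y * (((ρ y)⁻¹ : ℂˣ) : ℂ) =
        (((ρ x)⁻¹ : ℂˣ) : ℂ) *
          ∑ y : U, (theta A.ord : (M ≃ₐ[K] M) → ℂ) y * (((ρ y)⁻¹ : ℂˣ) : ℂ) := by
      rw [Finset.mul_sum]
      refine Fintype.sum_equiv (Equiv.mulRight x⁻¹) _ _ fun y => ?_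
      change _ = (((ρ x)⁻¹ : ℂˣ) : ℂ) * ((theta A.ord : (M ≃ₐ[K] M) → ℂ) ((y * x⁻¹ : U) : _) *
        (((ρ (y * x⁻¹))⁻¹ : ℂˣ) : ℂ))
      have h4 : (theta A.ord : (M ≃ₐ[K] M) → ℂ) ((y * x⁻¹ : U) : M ≃ₐ[K] M) =
          theta A.ord (y : M ≃ₐ[K] M) := by
        push_cast
        exact hconst _ _ (inv_mem hx)
      rw [h4, map_mul, map_inv, mul_inv, inv_inv, Units.val_mul]
      have h5 : (((ρ x)⁻¹ : ℂˣ) : ℂ) * (ρ x : ℂ) = 1 := by
        rw [← Units.val_mul, inv_mul_cancel, Units.val_one]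
      linear_combination (-(theta A.ord : (M ≃ₐ[K] M) → ℂ) (y : M ≃ₐ[K] M) *
        (((ρ y)⁻¹ : ℂˣ) : ℂ)) * h5
    have h6 : (((ρ x)⁻¹ : ℂˣ) : ℂ) ≠ 1 := by
      intro h7
      apply hρ
      have h8 : (ρ x)⁻¹ = 1 := Units.ext h7
      rwa [inv_eq_one] at h8
    have h9 : ∑ y : U, (theta A.ord : (M ≃ₐ[K] M) → ℂ) y * (((ρ y)⁻¹ : ℂˣ) : ℂ) = 0 := by
      have h10 : ((((ρ x)⁻¹ : ℂˣ) : ℂ) - 1) *
          ∑ y : U, (theta A.ord : (M ≃ₐ[K] M) → ℂ) y * (((ρ y)⁻¹ : ℂˣ) : ℂ) = 0 := by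
        rw [sub_mul, one_mul, ← h3, sub_self]
      rcases mul_eq_zero.1 h10 with h11 | h11
      · exact absurd (sub_eq_zero.1 h11) h6
      · exact h11
    rw [h9] at ha
    have h12 : (a : ℂ) = 0 := by
      rcases mul_eq_zero.1 ha.symm with h13 | h13
      · exact h13
      · exact absurd h13 card_ne
    have h14 : a = 0 := by exact_mod_cast h12
    rw [h14]
    rfl

/-- a perfect group is generated by its elements of odd order -/
theorem oddGen_top {G : Type} [Group G] [Finite G] (h : commutator G = ⊤) : oddGen G = ⊤ := by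
  have : Fact (Nat.Prime 2) := ⟨Nat.prime_two⟩
  by_contra hne
  let q := QuotientGroup.mk' (oddGen G)
  have hq : Function.Surjective q := QuotientGroup.mk'_surjective _
  have hP : IsPGroup 2 (G ⧸ oddGen G) := by
    intro x
    obtain ⟨g, rfl⟩ := hq x
    obtain ⟨k, hk⟩ := pow_mem_oddGen g
    exact ⟨k, by rw [← map_pow]; exact (QuotientGroup.eq_one_iff _).2 hk⟩
  have hnt : Nontrivial (G ⧸ oddGen G) := by
    rw [← not_subsingleton_iff_nontrivial]
    intro h1
    exact hne (QuotientGroup.subgroup_eq_top_of_subsingleton _ h1)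
  have h3 : Group.IsNilpotent (G ⧸ oddGen G) := hP.isNilpotent
  have h4 : Group.IsSolvable (G ⧸ oddGen G) := inferInstance
  have h5 := Group.IsSolvable.commutator_lt_top_of_nontrivial (G ⧸ oddGen G)
  have h6 : commutator (G ⧸ oddGen G) = ⊤ := by
    have h7 : (commutator G).map q = commutator (G ⧸ oddGen G) := by
      rw [commutator_def, commutator_def, Subgroup.map_commutator,
        Subgroup.map_top_of_surjective q hq]
    rw [← h7, h, Subgroup.map_top_of_surjective q hq]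
  exact h5.ne h6

/-- **Perfect groups**: all the zeta functions have the same order at the central point. -/
theorem central_perfect {r : ℕ}
    (hr : meromorphicOrderAt (cont (NumberField.dedekindZeta M)) (1 / 2) = (r : WithTop ℤ))
    (hp : ∀ p : ℕ, p.Prime → p ≠ 2 → p ∣ Nat.card (M ≃ₐ[K] M) → r < 2 * p)
    (hT : ¬ TwistZero K M) (hG : commutator (M ≃ₐ[K] M) = ⊤) (L : IntermediateField K M) :
    meromorphicOrderAt (cont (NumberField.dedekindZeta L)) (1 / 2) =
      meromorphicOrderAt (cont (NumberField.dedekindZeta K)) (1 / 2) := by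
  obtain ⟨N, -, -, hab, -, -, h, -, -⟩ := central_quot hr hp hT
  have h0 : 0 < (1 / 2 : ℂ).re := by norm_num
  have h1 : (1 / 2 : ℂ) ≠ 1 := by norm_num
  have hC := continued (K := K) (M := M) h0 h1
  have hN : N = ⊤ := by
    rw [eq_top_iff, ← hG, commutator_def, Subgroup.commutator_le]
    intro x _ y _
    rw [commutatorElement_def]
    have h2 := oddGen_top hG
    exact hab x (h2 ▸ mem_top x) y (h2 ▸ mem_top y)
  rw [h L, ← lin_top hC h0]
  have h3 := lin_fixer (F := (L ⊓ IntermediateField.fixedField N : IntermediateField K M)) hC h0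
  rw [← h3, fixer_inter, fixing_inf, hN, sup_top_eq]

end

end Pool.Agent.H701.CP
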